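import Pool.Agent.Q267.GBP2.Labels

/-!
# The combinatorics of the windows: cliques and dynamic pairs
-/

namespace Pool.Agent.Q267.GBP2

variable {C N : ℕ}

/-- Two labels in a common window. -/
def Near (C N : ℕ) (u v : Lab) : Prop := ∃ c i, Valid C N c i ∧ Win N c i u ∧ Win N c i v

theorem Near.symm {u v : Lab} (h : Near C N u v) : Near C N v u := by
  obtain ⟨c, i, h1, h2, h3⟩ := h
  exact ⟨c, i, h1, h3, h2⟩

/-- A triangle lies in a window, and each label adjacent to all of it lies in the same window. -/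
theorem tri (hN : ∀ c < C, 2 * d c + 10 ≤ N) (hN3 : 3 ≤ N) {u v w : Lab} (huv : u ≠ v)
    (hvw : v ≠ w) (huw : u ≠ w) (h1 : Near C N u v) (h2 : Near C N v w) (h3 : Near C N u w) :
    ∃ c i, Valid C N c i ∧ Win N c i u ∧ Win N c i v ∧ Win N c i w ∧
      ∀ z, z ≠ u → z ≠ v → z ≠ w → Near C N u z → Near C N v z → Near C N w z → Win N c i z := by
  -- the key step: a unique pair in a window
  have key : ∀ u v w : Lab, u ≠ v → ∀ c i, Valid C N c i → Win N c i u → Win N c i v →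
      Win N c i w → Uniq C N u v → ∀ z, z ≠ u → z ≠ v → Near C N u z → Near C N v z →
      Win N c i z := by
    intro u v w huv c i hv hu hv' hw hU z hzu hzv n1 n2
    obtain ⟨c2, i2, a1, a2, a3⟩ := n2
    obtain ⟨c3, i3, b1, b2, b3⟩ := n1
    rcases T_all hN hN3 huv hzv.symm hzu.symm c i c2 i2 c3 i3 hv a1 b1 hu hv' a2 a3 b2 b3 with
      ⟨g, _⟩ | ⟨g, _⟩ | ⟨g, _⟩
    · exact g
    · obtain ⟨e1, e2⟩ := hU c i c2 i2 hv a1 hu hv' g a2
      rw [e1, e2]; exact a3
    · obtain ⟨e1, e2⟩ := hU c i c3 i3 hv b1 hu hv' b2 g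
      rw [e1, e2]; exact b3
  obtain ⟨c1, i1, p1, p2, p3⟩ := h1
  obtain ⟨c2, i2, q1, q2, q3⟩ := h2
  obtain ⟨c3, i3, r1, r2, r3⟩ := h3
  rcases T_all hN hN3 huv hvw huw c1 i1 c2 i2 c3 i3 p1 q1 r1 p2 p3 q2 q3 r2 r3 with
    ⟨g, hU⟩ | ⟨g, hU⟩ | ⟨g, hU⟩
  · exact ⟨c1, i1, p1, p2, p3, g, fun z z1 z2 z3 n1 n2 n3 =>
      key u v w huv c1 i1 p1 p2 p3 g hU z z1 z2 n1 n2⟩
  · exact ⟨c2, i2, q1, g, q2, q3, fun z z1 z2 z3 n1 n2 n3 =>
      key v w u hvw c2 i2 q1 q2 q3 g hU z z2 z3 n2 n3⟩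
  · exact ⟨c3, i3, r1, r2, g, r3, fun z z1 z2 z3 n1 n2 n3 =>
      key u w v huw c3 i3 r1 r2 r3 g hU z z1 z3 n1 n3⟩

/-- The elements of a window. -/
def elems (N c i : ℕ) : Finset Lab :=
  if i < N then {.P i, .P (i + 1), .Q (i + d c), .Q (i + 1 + d c), .R (2 * i + d c)}
  else if i = N then {.P N, .Q (N + d c), .X c 0, .X c 1, .X c 2}
  else {.P 0, .Q (d (c + 1)), .X c 0, .X c 1, .X c 3}

theorem card_five_le (a b c d e : Lab) : ({a, b, c, d, e} : Finset Lab).card ≤ 5 :=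
  Finset.card_le_five

theorem elems_card (N c i : ℕ) : (elems N c i).card ≤ 5 := by
  unfold elems
  split_ifs
  · exact Finset.card_le_five
  · exact Finset.card_le_five
  · exact Finset.card_le_five

theorem win_iff {c i : ℕ} (hi : i ≤ N + 1) (u : Lab) : Win N c i u ↔ u ∈ elems N c i := by
  unfold elems
  rcases lt_trichotomy i N with h | h | h
  · rw [if_pos h]
    rcases u with a | a | a | ⟨a, a'⟩ | a <;>
      simp only [Win, Finset.mem_insert, Finset.mem_singleton, Lab.P.injEq, Lab.Q.injEq,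
        Lab.R.injEq, Lab.X.injEq, reduceCtorEq, false_or, or_false, iff_false] <;> omega
  · rw [if_neg (by omega), if_pos h]
    rcases u with a | a | a | ⟨a, a'⟩ | a <;>
      simp only [Win, Finset.mem_insert, Finset.mem_singleton, Lab.P.injEq, Lab.Q.injEq,
        Lab.R.injEq, Lab.X.injEq, reduceCtorEq, false_or, or_false, iff_false] <;> omega
  · rw [if_neg (by omega), if_neg (by omega)]
    rcases u with a | a | a | ⟨a, a'⟩ | a <;>
      simp only [Win, Finset.mem_insert, Finset.mem_singleton, Lab.P.injEq, Lab.Q.injEq,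
        Lab.R.injEq, Lab.X.injEq, reduceCtorEq, false_or, or_false, iff_false] <;> omega

/-- The dynamic pair number `(c, i)`. -/
def Dyn (C N c i : ℕ) (u v : Lab) : Prop :=
  (i ≤ N ∧ c < C ∧ u = .P i ∧ v = .Q (i + d c)) ∨
  (i = N + 1 ∧ c + 1 < C ∧ u = .X c 0 ∧ v = .X c 1)

/-- The time of the dynamic pair `(c, i)`. -/
def tau (N c i : ℕ) : ℕ := c * (N + 2) + i

theorem dyn_win {c i c' i' : ℕ} {u v : Lab}
    (h : Dyn C N c i u v) (hv : Valid C N c' i') (hu : Win N c' i' u) (hw : Win N c' i' v) :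
    tau N c' i' = tau N c i ∨ tau N c' i' + 1 = tau N c i := by
  obtain ⟨v1, v2, v3⟩ := hv
  unfold tau
  rcases h with ⟨h1, h2, rfl, rfl⟩ | ⟨h1, h2, rfl, rfl⟩
  · obtain ⟨e, he, k⟩ := slope ⟨v1, v2, v3⟩ hu hw
    have k1 := sep2 c e (by omega) (by omega)
    subst k1
    simp only [Win] at hu hw
    rcases hu with ⟨g1, g2⟩ | ⟨g1, g2⟩ | ⟨g1, g2⟩
    · have k2 := sep2 c c' (by omega) (by omega)
      subst k2
      omega
    · have k2 := sep2 c c' (by omega) (by omega)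
      subst k2
      omega
    · have k2 := sep2 c (c' + 1) (by omega) (by omega)
      subst k2
      right
      rw [g1, g2]; ring
  · simp only [Win] at hu hw
    have e1 : c = c' := hu.1
    subst e1
    omega

theorem dyn_unique {c i c' i' : ℕ} {u v : Lab} (h : Dyn C N c i u v) (h' : Dyn C N c' i' u v) :
    c = c' ∧ i = i' := by
  rcases h with ⟨h1, h2, rfl, rfl⟩ | ⟨h1, h2, rfl, rfl⟩
  · rcases h' with ⟨g1, g2, g3, g4⟩ | ⟨g1, g2, g3, g4⟩
    · rw [Lab.P.injEq] at g3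
      rw [Lab.Q.injEq] at g4
      have := sep2 c c' (by omega) (by omega)
      exact ⟨this, g3⟩
    · cases g3
  · rcases h' with ⟨g1, g2, g3, g4⟩ | ⟨g1, g2, g3, g4⟩
    · cases g3
    · rw [Lab.X.injEq] at g3
      exact ⟨g3.1, by omega⟩

theorem dyn_symm_false {c i c' i' : ℕ} {u v : Lab} (h : Dyn C N c i u v)
    (h' : Dyn C N c' i' v u) : False := by
  rcases h with ⟨h1, h2, rfl, rfl⟩ | ⟨h1, h2, rfl, rfl⟩
  · rcases h' with ⟨g1, g2, g3, g4⟩ | ⟨g1, g2, g3, g4⟩
    · cases g3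
    · cases g3
  · rcases h' with ⟨g1, g2, g3, g4⟩ | ⟨g1, g2, g3, g4⟩
    · cases g3
    · rw [Lab.X.injEq] at g3
      omega

/-- Each window contains the dynamic pair with its number. -/
theorem dyn_fst {c i : ℕ} (hv : Valid C N c i) : ∃ u v, Dyn C N c i u v ∧ Win N c i u ∧
    Win N c i v := by
  obtain ⟨v1, v2, v3⟩ := hv
  by_cases h : i ≤ N
  · refine ⟨.P i, .Q (i + d c), Or.inl ⟨h, v1, rfl, rfl⟩, ?_, ?_⟩
    · simp only [Win, or_true, true_or, and_true, true_and]; omega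
    · rcases Nat.lt_or_ge i N with h' | h'
      · exact Or.inl ⟨h', Or.inl rfl⟩
      · have : i = N := by omega
        subst this
        exact Or.inr (Or.inl ⟨rfl, rfl⟩)
  · refine ⟨.X c 0, .X c 1, Or.inr ⟨by omega, v3 (by omega), rfl, rfl⟩, ?_, ?_⟩
    · simp only [Win, or_true, true_or, and_true, true_and]; omega
    · simp only [Win, or_true, true_or, and_true, true_and]; omega

/-- Each window contains the next dynamic pair. -/
theorem dyn_snd {c i : ℕ} (hv : Valid C N c i) : ∃ c' i' u v, Dyn C N c' i' u v ∧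
    tau N c' i' = tau N c i + 1 ∧ Win N c i u ∧ Win N c i v := by
  obtain ⟨v1, v2, v3⟩ := hv
  rcases lt_trichotomy i N with h | h | h
  · refine ⟨c, i + 1, .P (i + 1), .Q (i + 1 + d c), Or.inl ⟨by omega, v1, rfl, rfl⟩, by
      unfold tau; omega, ?_, ?_⟩
    · simp only [Win, or_true, true_or, and_true, true_and]; omega
    · simp only [Win, or_true, true_or, and_true, true_and]; omega
  · refine ⟨c, N + 1, .X c 0, .X c 1, Or.inr ⟨rfl, v3 (by omega), rfl, rfl⟩, by
      unfold tau; omega, ?_, ?_⟩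
    · simp only [Win, or_true, true_or, and_true, true_and]; omega
    · simp only [Win, or_true, true_or, and_true, true_and]; omega
  · have hi : i = N + 1 := by omega
    subst hi
    refine ⟨c + 1, 0, .P 0, .Q (0 + d (c + 1)), Or.inl ⟨by omega, v3 (by omega), rfl, rfl⟩, by
      unfold tau; ring, ?_, ?_⟩
    · exact Or.inr (Or.inr ⟨rfl, rfl⟩)
    · exact Or.inr (Or.inr ⟨rfl, by omega⟩)

end Pool.Agent.Q267.GBP2
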