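import Pool.Agent.Q267.GBP2.Upper
import Pool.Agent.Q267.GBP2.Labels2

/-!
# A slow process
-/

namespace Pool.Agent.Q267.GBP2

open SimpleGraph Pool.Agent.Q267.GBP

/-- Adjacency of labels at time `t`. -/
def AdjL (C N t : ℕ) (u v : Lab) : Prop :=
  u ≠ v ∧ ((Near C N u v ∧ ∀ c i, (Dyn C N c i u v ∨ Dyn C N c i v u) → tau N c i ≤ t) ∨
    ∃ l l', u = .B l ∧ v = .B l')

theorem AdjL.symm {C N t : ℕ} {u v : Lab} (h : AdjL C N t u v) : AdjL C N t v u := by
  obtain ⟨h1, h2⟩ := h
  refine ⟨h1.symm, ?_⟩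
  rcases h2 with ⟨h2, h3⟩ | ⟨l, l', h2, h3⟩
  · exact Or.inl ⟨h2.symm, fun c i h => h3 c i h.symm⟩
  · exact Or.inr ⟨l', l, h3, h2⟩

/-- The graph at time `t`. -/
def GT {V : Type*} (lab : V → Lab) (C N t : ℕ) : SimpleGraph V where
  Adj x y := AdjL C N t (lab x) (lab y)
  symm := by
    constructor
    intro x y h
    exact h.symm
  loopless := by
    constructor
    intro x h
    exact h.1 rfl

theorem GT_mono {V : Type*} (lab : V → Lab) (C N : ℕ) {t t' : ℕ} (h : t ≤ t') :
    GT lab C N t ≤ GT lab C N t' := by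
  rintro x y ⟨h1, h2⟩
  refine ⟨h1, ?_⟩
  rcases h2 with ⟨h2, h3⟩ | h2
  · exact Or.inl ⟨h2, fun c i hh => (h3 c i hh).trans h⟩
  · exact Or.inr h2

theorem near_B {C N l : ℕ} {u : Lab} : ¬ Near C N (.B l) u := by
  rintro ⟨c, i, _, h, _⟩
  exact h

variable {V : Type*} [Fintype V] [DecidableEq V] {lab : V → Lab} {C N : ℕ}

theorem B_of_adj {t : ℕ} {p q : V} (h : (GT lab C N t).Adj p q) (hp : ∃ l, lab p = .B l) :
    ∃ l, lab q = .B l := by
  obtain ⟨l, hl⟩ := hp
  rcases h.2 with ⟨h2, _⟩ | ⟨l1, l2, _, h3⟩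
  · rw [hl] at h2
    exact absurd h2 near_B
  · exact ⟨l2, h3⟩

theorem near_of_adj {t : ℕ} {p q : V} (h : (GT lab C N t).Adj p q) (hp : ¬ ∃ l, lab p = .B l) :
    Near C N (lab p) (lab q) := by
  rcases h.2 with ⟨h2, _⟩ | ⟨l1, l2, h3, _⟩
  · exact h2
  · exact absurd ⟨l1, h3⟩ hp

/-- A set with at most one missing pair lies in a window or in the blob. -/
theorem cluster (hN : ∀ c < C, 2 * d c + 10 ≤ N) (hN3 : 3 ≤ N) (hlab : Function.Injective lab)
    {t : ℕ} {x y : V} {S : Finset V} (hx : x ∈ S) (hy : y ∈ S) (h5 : 5 ≤ S.card)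
    (hS : ∀ p ∈ S, ∀ q ∈ S, p ≠ q → AddAdj (GT lab C N t) x y p q) :
    (∃ c i, Valid C N c i ∧ ∀ z ∈ S, Win N c i (lab z)) ∨ (∀ z ∈ S, ∃ l, lab z = .B l) := by
  have hadj : ∀ p ∈ S, ∀ q ∈ S, p ≠ q → p ≠ x → p ≠ y → (GT lab C N t).Adj p q := by
    intro p hp q hq hpq h1 h2
    exact adj_of_addAdj (hS p hp q hq hpq) (fun e => h1 e.1) (fun e => h2 e.1)
  have h3 : 3 ≤ (S \ {x, y}).card := by
    have h2 : ({x, y} : Finset V).card ≤ 2 := Finset.card_le_two
    have h3 := Finset.le_card_sdiff ({x, y} : Finset V) S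
    omega
  obtain ⟨T, hT, hT3⟩ := Finset.exists_subset_card_eq h3
  obtain ⟨a, b, z, hab, haz, hbz, hTe⟩ := Finset.card_eq_three.1 hT3
  have hmem : ∀ w ∈ T, w ∈ S ∧ w ≠ x ∧ w ≠ y := by
    intro w hw
    have := hT hw
    rw [Finset.mem_sdiff, Finset.mem_insert, Finset.mem_singleton, not_or] at this
    exact this
  obtain ⟨haS, hax, hay⟩ := hmem a (by rw [hTe]; simp)
  obtain ⟨hbS, hbx, hby⟩ := hmem b (by rw [hTe]; simp)
  obtain ⟨hzS, hzx, hzy⟩ := hmem z (by rw [hTe]; simp)
  by_cases hB : ∃ l, lab a = .B l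
  · right
    intro w hw
    by_cases hwa : a = w
    · rw [← hwa]; exact hB
    · exact B_of_adj (hadj a haS w hw hwa hax hay) hB
  · left
    have hBall : ∀ w ∈ S, ¬ ∃ l, lab w = .B l := by
      intro w hw hwB
      by_cases hwa : a = w
      · rw [← hwa] at hwB; exact hB hwB
      · exact hB (B_of_adj (hadj a haS w hw hwa hax hay).symm hwB)
    have e1 : lab a ≠ lab b := fun e => hab (hlab e)
    have e2 : lab b ≠ lab z := fun e => hbz (hlab e)
    have e3 : lab a ≠ lab z := fun e => haz (hlab e)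
    obtain ⟨c, i, hv, w1, w2, w3, hall⟩ := tri hN hN3 e1 e2 e3
      (near_of_adj (hadj a haS b hbS hab hax hay) hB)
      (near_of_adj (hadj b hbS z hzS hbz hbx hby) (hBall b hbS))
      (near_of_adj (hadj a haS z hzS haz hax hay) hB)
    refine ⟨c, i, hv, ?_⟩
    intro w hw
    by_cases ha : a = w
    · rw [← ha]; exact w1
    by_cases hb : b = w
    · rw [← hb]; exact w2
    by_cases hz : z = w
    · rw [← hz]; exact w3
    exact hall (lab w) (fun e => ha (hlab e).symm) (fun e => hb (hlab e).symm)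
      (fun e => hz (hlab e).symm)
      (near_of_adj (hadj a haS w hw ha hax hay) hB)
      (near_of_adj (hadj b hbS w hw hb hbx hby) (hBall b hbS))
      (near_of_adj (hadj z hzS w hw hz hzx hzy) (hBall z hzS))

theorem card_win (hlab : Function.Injective lab) {c i : ℕ} (hv : Valid C N c i) {S : Finset V}
    (hS : ∀ z ∈ S, Win N c i (lab z)) : S.card ≤ 5 := by
  have h1 : S.image lab ⊆ elems N c i := by
    intro u hu
    obtain ⟨z, hz, rfl⟩ := Finset.mem_image.1 hu
    exact (win_iff hv.2.1 _).1 (hS z hz)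
  have h2 := Finset.card_le_card h1
  rw [Finset.card_image_of_injective _ hlab] at h2
  exact h2.trans (elems_card N c i)

theorem dyn_ne {c i : ℕ} {u v : Lab} (h : Dyn C N c i u v) : u ≠ v := by
  rcases h with ⟨_, _, rfl, rfl⟩ | ⟨_, _, rfl, rfl⟩
  · intro e; cases e
  · intro e; simp at e

theorem main_step (hN : ∀ c < C, 2 * d c + 10 ≤ N) (hN3 : 3 ≤ N)
    (hlab : Function.Injective lab) (t : ℕ) :
    infect HX (GT lab C N t) ≤ GT lab C N (t + 1) := by
  intro x y hxy
  rw [infect_adj_iff] at hxy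
  by_cases hG : (GT lab C N t).Adj x y
  · exact GT_mono lab C N (Nat.le_succ t) hG
  obtain ⟨hne, hc⟩ := hxy.resolve_left hG
  have hlne : lab x ≠ lab y := fun e => hne (hlab e)
  have hnB : ¬ ((∃ l, lab x = .B l) ∧ ∃ l, lab y = .B l) := by
    rintro ⟨⟨l, hl⟩, ⟨l', hl'⟩⟩
    exact hG ⟨hlne, Or.inr ⟨l, l', hl, hl'⟩⟩
  obtain ⟨F, K, v, a, b, hcop, hu⟩ := cop_of_usesCopy hc
  -- the case of an edge at `v`
  have caseV : ∀ a' ∈ K, ∀ b' ∈ K, a' ≠ b' → AddAdj (GT lab C N t) x y v b' →
      s(v, a') = s(x, y) → False := by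
    intro a' ha' b' hb' hab' hvb' hva'
    have hva : v ≠ a' := fun e => hcop.vC (e ▸ ha')
    have hvb : v ≠ b' := fun e => hcop.vC (e ▸ hb')
    have hK : ∀ p ∈ K, ∀ q ∈ K, p ≠ q → (GT lab C N t).Adj p q := by
      intro p hp q hq hpq
      refine adj_of_addAdj (hcop.cliqueC p hp q hq hpq) ?_ ?_
      · rintro ⟨e1, e2⟩
        rw [← e1, ← e2] at hva'
        rcases Sym2.eq_iff.1 hva' with ⟨e, _⟩ | ⟨e, _⟩
        · exact hcop.vC (e ▸ hp)
        · exact hcop.vC (e ▸ hq)
      · rintro ⟨e1, e2⟩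
        rw [← e1, ← e2] at hva'
        rcases Sym2.eq_iff.1 hva' with ⟨e, _⟩ | ⟨e, _⟩
        · exact hcop.vC (e ▸ hq)
        · exact hcop.vC (e ▸ hp)
    have hvb'' : (GT lab C N t).Adj v b' := by
      refine adj_of_addAdj hvb' ?_ ?_
      · rintro ⟨e1, e2⟩
        rw [← e1, ← e2] at hva'
        rcases Sym2.eq_iff.1 hva' with ⟨_, e⟩ | ⟨e, _⟩
        · exact hab' e
        · exact hvb e
      · rintro ⟨e1, e2⟩
        rw [← e1, ← e2] at hva'
        rcases Sym2.eq_iff.1 hva' with ⟨e, _⟩ | ⟨_, e⟩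
        · exact hvb e
        · exact hab' e
    rcases cluster hN hN3 hlab (x := a') (y := b') ha' hb' (by rw [hcop.cardC]; norm_num)
      (fun p hp q hq hpq => Or.inl (hK p hp q hq hpq)) with ⟨c, i, hv, hw⟩ | hB
    · have := card_win hlab hv hw
      rw [hcop.cardC] at this
      omega
    · have hvB := B_of_adj hvb''.symm (hB b' hb')
      apply hnB
      rcases Sym2.eq_iff.1 hva' with ⟨e1, e2⟩ | ⟨e1, e2⟩
      · rw [← e1, ← e2]; exact ⟨hvB, hB a' ha'⟩
      · rw [← e1, ← e2]; exact ⟨hB a' ha', hvB⟩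
  rcases hu with ⟨hx, hy⟩ | ⟨hx, hy⟩ | hu | hu
  · rcases cluster hN hN3 hlab hx hy (by rw [hcop.cardF]) hcop.cliqueF with ⟨c, i, hv, hw⟩ | hB
    swap
    · exact absurd ⟨hB x hx, hB y hy⟩ hnB
    have hnear : Near C N (lab x) (lab y) := ⟨c, i, hv, hw x hx, hw y hy⟩
    -- the image of `F`
    have himg : F.image lab = elems N c i := by
      apply Finset.eq_of_subset_of_card_le
      · intro u hu
        obtain ⟨z, hz, rfl⟩ := Finset.mem_image.1 hu
        exact (win_iff hv.2.1 _).1 (hw z hz)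
      · rw [Finset.card_image_of_injective _ hlab, hcop.cardF]
        exact elems_card N c i
    have hsurj : ∀ u, Win N c i u → ∃ z ∈ F, lab z = u := by
      intro u hu
      rw [win_iff hv.2.1, ← himg, Finset.mem_image] at hu
      exact hu
    -- the dynamic index of the pair
    have hdyn : ∃ c' i', (Dyn C N c' i' (lab x) (lab y) ∨ Dyn C N c' i' (lab y) (lab x)) ∧
        t < tau N c' i' := by
      by_contra hcon
      push Not at hcon
      exact hG ⟨hlne, Or.inl ⟨hnear, fun c' i' hh => hcon c' i' hh⟩⟩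
    obtain ⟨c', i', hd, hlt⟩ := hdyn
    have htau : tau N c i = tau N c' i' ∨ tau N c i + 1 = tau N c' i' := by
      rcases hd with hd | hd
      · exact dyn_win hd hv (hw x hx) (hw y hy)
      · exact dyn_win hd hv (hw y hy) (hw x hx)
    -- dynamic pairs in `F` with another number are adjacent
    have hother : ∀ c2 i2 u w, Dyn C N c2 i2 u w → tau N c2 i2 ≠ tau N c' i' → Win N c i u →
        Win N c i w → tau N c2 i2 ≤ t := by
      intro c2 i2 u w hd2 hne2 hu hw'
      obtain ⟨p, hp, rfl⟩ := hsurj u hu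
      obtain ⟨q, hq, rfl⟩ := hsurj w hw'
      have hpq : p ≠ q := fun e => dyn_ne hd2 (by rw [e])
      have hadj : (GT lab C N t).Adj p q := by
        refine adj_of_addAdj (hcop.cliqueF p hp q hq hpq) ?_ ?_
        · rintro ⟨rfl, rfl⟩
          rcases hd with hd | hd
          · obtain ⟨e1, e2⟩ := dyn_unique hd2 hd
            exact hne2 (by rw [e1, e2])
          · exact dyn_symm_false hd2 hd
        · rintro ⟨rfl, rfl⟩
          rcases hd with hd | hd
          · exact dyn_symm_false hd2 hd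
          · obtain ⟨e1, e2⟩ := dyn_unique hd2 hd
            exact hne2 (by rw [e1, e2])
      rcases hadj.2 with ⟨_, h3⟩ | ⟨l1, l2, h3, _⟩
      · exact h3 c2 i2 (Or.inl hd2)
      · exfalso
        rw [h3] at hu
        exact hu
    have hle : tau N c' i' ≤ t + 1 := by
      rcases htau with h1 | h1
      · exfalso
        obtain ⟨c2, i2, u, w, hd2, ht2, hu2, hw2⟩ := dyn_snd hv
        have := hother c2 i2 u w hd2 (by omega) hu2 hw2
        omega
      · obtain ⟨u, w, hd2, hu2, hw2⟩ := dyn_fst hv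
        have := hother c i u w hd2 (by omega) hu2 hw2
        omega
    refine ⟨hlne, Or.inl ⟨hnear, ?_⟩⟩
    intro c2 i2 hh
    have : tau N c2 i2 = tau N c' i' := by
      rcases hh with hh | hh <;> rcases hd with hd | hd
      · obtain ⟨e1, e2⟩ := dyn_unique hh hd
        rw [e1, e2]
      · exact (dyn_symm_false hh hd).elim
      · exact (dyn_symm_false hh hd).elim
      · obtain ⟨e1, e2⟩ := dyn_unique hh hd
        rw [e1, e2]
    omega
  · exfalso
    rcases cluster hN hN3 hlab hx hy (by rw [hcop.cardC]; norm_num) hcop.cliqueC with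
      ⟨c, i, hv, hw⟩ | hB
    · have := card_win hlab hv hw
      rw [hcop.cardC] at this
      omega
    · exact hnB ⟨hB x hx, hB y hy⟩
  · exact (caseV a hcop.aC b hcop.bC hcop.ab hcop.vb hu).elim
  · exact (caseV b hcop.bC a hcop.aC hcop.ab.symm hcop.va hu).elim

theorem proc_le (hN : ∀ c < C, 2 * d c + 10 ≤ N) (hN3 : 3 ≤ N)
    (hlab : Function.Injective lab) (t : ℕ) :
    proc HX (GT lab C N 0) t ≤ GT lab C N t := by
  induction t with
  | zero => exact le_refl _
  | succ t ih => exact (infect_mono ih).trans (main_step hN hN3 hlab t)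

theorem tau_inj {c i c' i' : ℕ} (hi : i ≤ N + 1) (hi' : i' ≤ N + 1)
    (h : tau N c i = tau N c' i') : c = c' ∧ i = i' := by
  unfold tau at h
  have h1 : c = c' := by
    rcases lt_trichotomy c c' with h2 | h2 | h2
    · exfalso
      have : (c + 1) * (N + 2) ≤ c' * (N + 2) := Nat.mul_le_mul_right _ h2
      rw [Nat.add_mul] at this
      omega
    · exact h2
    · exfalso
      have : (c' + 1) * (N + 2) ≤ c * (N + 2) := Nat.mul_le_mul_right _ h2
      rw [Nat.add_mul] at this
      omega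
  subst h1
  exact ⟨rfl, by omega⟩

theorem elems_card_eq (N c i : ℕ) : (elems N c i).card = 5 := by
  unfold elems
  split_ifs
  · rw [Finset.card_insert_of_notMem, Finset.card_insert_of_notMem,
      Finset.card_insert_of_notMem, Finset.card_insert_of_notMem, Finset.card_singleton] <;>
      simp
  · rw [Finset.card_insert_of_notMem, Finset.card_insert_of_notMem,
      Finset.card_insert_of_notMem, Finset.card_insert_of_notMem, Finset.card_singleton] <;>
      simp
  · rw [Finset.card_insert_of_notMem, Finset.card_insert_of_notMem,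
      Finset.card_insert_of_notMem, Finset.card_insert_of_notMem, Finset.card_singleton] <;>
      simp

end Pool.Agent.Q267.GBP2
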