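import Mathlib.Tactic

/-!
# The combinatorics of the windows
-/

namespace Pool.Agent.Q267.GBP2

/-- Labels of the vertices. -/
inductive Lab
  | P (i : ℕ)
  | Q (j : ℕ)
  | R (k : ℕ)
  | X (c l : ℕ)
  | B (l : ℕ)
  deriving DecidableEq

/-- The slopes. -/
def d (c : ℕ) : ℕ := 8 * 3 ^ c

theorem d_lt {a b : ℕ} (h : a < b) : 3 * d a ≤ d b := by
  unfold d
  have : 3 ^ (a + 1) ≤ 3 ^ b := Nat.pow_le_pow_right (by norm_num) h
  rw [pow_succ] at this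
  omega

theorem d_ge (a : ℕ) : 8 ≤ d a := by
  unfold d
  have : 0 < 3 ^ a := Nat.pow_pos (by norm_num)
  omega

theorem sep2 (a b : ℕ) (h1 : d a ≤ d b + 7) (h2 : d b ≤ d a + 7) : a = b := by
  rcases lt_trichotomy a b with h | h | h
  · have := d_lt h; have := d_ge a; omega
  · exact h
  · have := d_lt h; have := d_ge b; omega

theorem sep3 (a b c : ℕ) (h1 : d a + d b ≤ 2 * d c + 4) (h2 : 2 * d c ≤ d a + d b + 4) :
    a = c ∧ b = c := by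
  have ga := d_ge a
  have gb := d_ge b
  have gc := d_ge c
  rcases lt_trichotomy a b with h | h | h
  · exfalso
    have := d_lt h
    rcases lt_or_ge c b with h3 | h3
    · have := d_lt h3; omega
    · rcases eq_or_lt_of_le h3 with h4 | h4
      · subst h4; omega
      · have := d_lt h4; omega
  · subst h
    have := sep2 a c (by omega) (by omega)
    exact ⟨this, this⟩
  · exfalso
    have := d_lt h
    rcases lt_or_ge c a with h3 | h3
    · have := d_lt h3; omega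
    · rcases eq_or_lt_of_le h3 with h4 | h4
      · subst h4; omega
      · have := d_lt h4; omega

/-- The windows: `(c, i)` with `i < N` is the `i`-th window of slope `d c`; `(c, N)` and
`(c, N + 1)` are the connecting windows. -/
def Win (N c i : ℕ) : Lab → Prop
  | .P a => (i < N ∧ (a = i ∨ a = i + 1)) ∨ (i = N ∧ a = N) ∨ (i = N + 1 ∧ a = 0)
  | .Q b => (i < N ∧ (b = i + d c ∨ b = i + 1 + d c)) ∨ (i = N ∧ b = N + d c) ∨
      (i = N + 1 ∧ b = d (c + 1))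
  | .R k => i < N ∧ k = 2 * i + d c
  | .X c' l => c' = c ∧ ((i = N ∧ (l = 0 ∨ l = 1 ∨ l = 2)) ∨ (i = N + 1 ∧ (l = 0 ∨ l = 1 ∨ l = 3)))
  | .B _ => False

/-- The windows which are used. -/
def Valid (C N c i : ℕ) : Prop := c < C ∧ i ≤ N + 1 ∧ (N ≤ i → c + 1 < C)

/-- A pair lying in at most one window. -/
def Uniq (C N : ℕ) (u v : Lab) : Prop := ∀ c i c' i', Valid C N c i → Valid C N c' i' →
  Win N c i u → Win N c i v → Win N c' i' u → Win N c' i' v → c = c' ∧ i = i'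

variable {C N : ℕ}

theorem Uniq.symm {u v : Lab} (h : Uniq C N u v) : Uniq C N v u :=
  fun c i c' i' h1 h2 h3 h4 h5 h6 => h c i c' i' h1 h2 h4 h3 h6 h5

theorem slope {c i a b : ℕ} (hv : Valid C N c i) (h1 : Win N c i (.P a))
    (h2 : Win N c i (.Q b)) : ∃ e, e < C ∧ (b = a + d e ∨
      (c = e ∧ i = a ∧ i < N ∧ b = a + 1 + d e) ∨
      (c = e ∧ i + 1 = a ∧ i < N ∧ b + 1 = a + d e)) := by
  obtain ⟨v1, v2, v3⟩ := hv
  simp only [Win] at h1 h2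
  have := d_ge c
  have := d_ge (c + 1)
  rcases h1 with ⟨g1, g2⟩ | ⟨g1, g2⟩ | ⟨g1, g2⟩
  · exact ⟨c, v1, by omega⟩
  · exact ⟨c, v1, by omega⟩
  · exact ⟨c + 1, v3 (by omega), by omega⟩

theorem uniq_plus (a b e : ℕ) (h : b = a + 1 + d e) : Uniq C N (.P a) (.Q b) := by
  intro c i c' i' hv hv' h1 h2 h3 h4
  obtain ⟨e1, _, g1⟩ := slope hv h1 h2
  obtain ⟨e2, _, g2⟩ := slope hv' h3 h4
  have k1 := sep2 e1 e (by omega) (by omega)
  have k2 := sep2 e2 e (by omega) (by omega)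
  subst k1; subst k2
  omega

theorem uniq_minus (a b e : ℕ) (h : b + 1 = a + d e) : Uniq C N (.P a) (.Q b) := by
  intro c i c' i' hv hv' h1 h2 h3 h4
  obtain ⟨e1, _, g1⟩ := slope hv h1 h2
  obtain ⟨e2, _, g2⟩ := slope hv' h3 h4
  have k1 := sep2 e1 e (by omega) (by omega)
  have k2 := sep2 e2 e (by omega) (by omega)
  subst k1; subst k2
  omega

theorem uniq_PR (a k : ℕ) : Uniq C N (.P a) (.R k) := by
  intro c i c' i' hv hv' h1 h2 h3 h4
  simp only [Win] at h1 h2 h3 h4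
  have k1 := sep2 c c' (by omega) (by omega)
  subst k1
  omega

theorem uniq_QR (b k : ℕ) : Uniq C N (.Q b) (.R k) := by
  intro c i c' i' hv hv' h1 h2 h3 h4
  simp only [Win] at h1 h2 h3 h4
  have k1 := sep2 c c' (by omega) (by omega)
  subst k1
  omega

theorem uniq_PX (hN : 1 ≤ N) (a c0 l : ℕ) : Uniq C N (.P a) (.X c0 l) := by
  intro c i c' i' hv hv' h1 h2 h3 h4
  simp only [Win] at h1 h2 h3 h4
  omega

theorem uniq_QX (hN : ∀ c < C, 2 * d c + 10 ≤ N) (b c0 l : ℕ) : Uniq C N (.Q b) (.X c0 l) := by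
  intro c i c' i' hv hv' h1 h2 h3 h4
  simp only [Win] at h1 h2 h3 h4
  obtain ⟨v1, v2, v3⟩ := hv
  obtain ⟨v1', v2', v3'⟩ := hv'
  have e1 : c = c0 := h2.1.symm
  have e2 : c' = c0 := h4.1.symm
  subst e1; subst e2
  have h5 : c' + 1 < C := by omega
  have := hN _ h5
  omega

theorem uniq_XX (c0 l c1 l' : ℕ) (h : l = 2 ∨ l = 3) : Uniq C N (.X c0 l) (.X c1 l') := by
  intro c i c' i' hv hv' h1 h2 h3 h4
  simp only [Win] at h1 h2 h3 h4
  omega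

/-- The triangle property for a triple. -/
def T (C N : ℕ) (u v w : Lab) : Prop := ∀ c1 i1 c2 i2 c3 i3, Valid C N c1 i1 → Valid C N c2 i2 →
  Valid C N c3 i3 → Win N c1 i1 u → Win N c1 i1 v → Win N c2 i2 v → Win N c2 i2 w →
  Win N c3 i3 u → Win N c3 i3 w →
  (Win N c1 i1 w ∧ Uniq C N u v) ∨ (Win N c2 i2 u ∧ Uniq C N v w) ∨
    (Win N c3 i3 v ∧ Uniq C N u w)

theorem T.swap {u v w : Lab} (h : T C N u v w) : T C N v u w := by
  intro c1 i1 c2 i2 c3 i3 h1 h2 h3 h4 h5 h6 h7 h8 h9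
  rcases h c1 i1 c3 i3 c2 i2 h1 h3 h2 h5 h4 h8 h9 h6 h7 with ⟨g1, g2⟩ | ⟨g1, g2⟩ | ⟨g1, g2⟩
  · exact Or.inl ⟨g1, g2.symm⟩
  · exact Or.inr (Or.inr ⟨g1, g2⟩)
  · exact Or.inr (Or.inl ⟨g1, g2⟩)

theorem T.rot {u v w : Lab} (h : T C N u v w) : T C N v w u := by
  intro c1 i1 c2 i2 c3 i3 h1 h2 h3 h4 h5 h6 h7 h8 h9
  rcases h c3 i3 c1 i1 c2 i2 h3 h1 h2 h9 h8 h4 h5 h7 h6 with ⟨g1, g2⟩ | ⟨g1, g2⟩ | ⟨g1, g2⟩
  · exact Or.inr (Or.inr ⟨g1, g2.symm⟩)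
  · exact Or.inl ⟨g1, g2⟩
  · exact Or.inr (Or.inl ⟨g1, g2.symm⟩)

theorem T_PPP {a b c : ℕ} (h1 : a ≠ b) (h2 : b ≠ c) (h3 : a ≠ c) (hN : 3 ≤ N) :
    T C N (.P a) (.P b) (.P c) := by
  intro c1 i1 c2 i2 c3 i3 v1 v2 v3 g1 g2 g3 g4 g5 g6
  simp only [Win] at g1 g2 g3 g4 g5 g6
  omega

theorem T_QQQ {a b c : ℕ} (h1 : a ≠ b) (h2 : b ≠ c) (h3 : a ≠ c) (hN : 3 ≤ N) :
    T C N (.Q a) (.Q b) (.Q c) := by
  intro c1 i1 c2 i2 c3 i3 v1 v2 v3 g1 g2 g3 g4 g5 g6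
  simp only [Win] at g1 g2 g3 g4 g5 g6
  omega

theorem T_PPQ' {a j : ℕ} : T C N (.P a) (.P (a + 1)) (.Q j) := by
  intro c1 i1 c2 i2 c3 i3 v1 v2 v3 g1 g2 g3 g4 g5 g6
  obtain ⟨e2, _, k2⟩ := slope v2 g3 g4
  obtain ⟨e3, _, k3⟩ := slope v3 g5 g6
  have k := sep2 e2 e3 (by omega) (by omega)
  subst k
  by_cases hj : j = a + d e2
  · right; left
    refine ⟨?_, uniq_minus _ _ e2 (by omega)⟩
    rcases k2 with k2 | ⟨k2, k2'⟩ | ⟨k2, k2'⟩
    · omega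
    · omega
    · subst k2; simp only [Win]; omega
  · right; right
    refine ⟨?_, uniq_plus _ _ e2 (by omega)⟩
    rcases k3 with k3 | ⟨k3, k3'⟩ | ⟨k3, k3'⟩
    · omega
    · subst k3; simp only [Win]; omega
    · omega

theorem T_PPQ {a b j : ℕ} (hab : a ≠ b) : T C N (.P a) (.P b) (.Q j) := by
  intro c1 i1 c2 i2 c3 i3 v1 v2 v3 g1 g2 g3 g4 g5 g6
  have h : b = a + 1 ∨ a = b + 1 := by
    simp only [Win] at g1 g2; omega
  rcases h with h | h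
  · subst h
    exact T_PPQ' c1 i1 c2 i2 c3 i3 v1 v2 v3 g1 g2 g3 g4 g5 g6
  · subst h
    exact T_PPQ'.swap c1 i1 c2 i2 c3 i3 v1 v2 v3 g1 g2 g3 g4 g5 g6

theorem T_PQQ' {a j : ℕ} : T C N (.P a) (.Q j) (.Q (j + 1)) := by
  intro c1 i1 c2 i2 c3 i3 v1 v2 v3 g1 g2 g3 g4 g5 g6
  obtain ⟨e1, _, k1⟩ := slope v1 g1 g2
  obtain ⟨e3, _, k3⟩ := slope v3 g5 g6
  have k := sep2 e1 e3 (by omega) (by omega)
  subst k
  by_cases hj : j = a + d e1
  · right; right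
    refine ⟨?_, uniq_plus _ _ e1 (by omega)⟩
    rcases k3 with k3 | ⟨k3, k3'⟩ | ⟨k3, k3'⟩
    · omega
    · subst k3; simp only [Win]; omega
    · omega
  · left
    refine ⟨?_, uniq_minus _ _ e1 (by omega)⟩
    rcases k1 with k1 | ⟨k1, k1'⟩ | ⟨k1, k1'⟩
    · omega
    · omega
    · subst k1; simp only [Win]; omega

theorem T_PQQ {a j j' : ℕ} (hj : j ≠ j') : T C N (.P a) (.Q j) (.Q j') := by
  intro c1 i1 c2 i2 c3 i3 v1 v2 v3 g1 g2 g3 g4 g5 g6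
  have h : j' = j + 1 ∨ j = j' + 1 := by
    simp only [Win] at g3 g4; omega
  rcases h with h | h
  · subst h
    exact T_PQQ' c1 i1 c2 i2 c3 i3 v1 v2 v3 g1 g2 g3 g4 g5 g6
  · subst h
    exact T_PQQ'.swap.rot c1 i1 c2 i2 c3 i3 v1 v2 v3 g1 g2 g3 g4 g5 g6

theorem T_PPR {a b k : ℕ} (_ : a ≠ b) : T C N (.P a) (.P b) (.R k) := by
  intro c1 i1 c2 i2 c3 i3 v1 v2 v3 g1 g2 g3 g4 g5 g6
  right; left
  refine ⟨?_, uniq_PR _ _⟩
  simp only [Win] at g1 g2 g3 g4 g5 g6 ⊢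
  have := sep2 c2 c3 (by omega) (by omega)
  subst this
  omega

theorem T_QQR {a b k : ℕ} (_ : a ≠ b) : T C N (.Q a) (.Q b) (.R k) := by
  intro c1 i1 c2 i2 c3 i3 v1 v2 v3 g1 g2 g3 g4 g5 g6
  right; left
  refine ⟨?_, uniq_QR _ _⟩
  simp only [Win] at g1 g2 g3 g4 g5 g6 ⊢
  have := sep2 c2 c3 (by omega) (by omega)
  subst this
  omega

theorem T_PQR {a b k : ℕ} : T C N (.P a) (.Q b) (.R k) := by
  intro c1 i1 c2 i2 c3 i3 v1 v2 v3 g1 g2 g3 g4 g5 g6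
  right; left
  refine ⟨?_, uniq_QR _ _⟩
  obtain ⟨e, _, k1⟩ := slope v1 g1 g2
  simp only [Win] at g3 g4 g5 g6 ⊢
  obtain ⟨s1, s2⟩ := sep3 c2 c3 e (by omega) (by omega)
  subst s1; subst s2
  omega

theorem T_PPX {a b c l : ℕ} (hab : a ≠ b) (hN : 2 ≤ N) : T C N (.P a) (.P b) (.X c l) := by
  intro c1 i1 c2 i2 c3 i3 v1 v2 v3 g1 g2 g3 g4 g5 g6
  exfalso
  simp only [Win] at g1 g2 g3 g4 g5 g6
  omega

theorem T_QQX {a b c l : ℕ} (hab : a ≠ b) (hN : ∀ c < C, 2 * d c + 10 ≤ N) :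
    T C N (.Q a) (.Q b) (.X c l) := by
  intro c1 i1 c2 i2 c3 i3 v1 v2 v3 g1 g2 g3 g4 g5 g6
  exfalso
  obtain ⟨w1, w2, w3⟩ := v2
  obtain ⟨w1', w2', w3'⟩ := v3
  simp only [Win] at g1 g2 g3 g4 g5 g6
  have e1 : c2 = c := g4.1.symm
  have e2 : c3 = c := g6.1.symm
  subst e1; subst e2
  have h5 : c3 + 1 < C := by omega
  have := hN _ h5
  omega

theorem T_PQX {a b c l : ℕ} (hN : ∀ c < C, 2 * d c + 10 ≤ N) :
    T C N (.P a) (.Q b) (.X c l) := by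
  intro c1 i1 c2 i2 c3 i3 v1 v2 v3 g1 g2 g3 g4 g5 g6
  obtain ⟨e, he, k⟩ := slope v1 g1 g2
  obtain ⟨w1, w2, w3⟩ := v2
  obtain ⟨w1', w2', w3'⟩ := v3
  have hNe := hN e he
  right; right
  refine ⟨?_, uniq_PX (by omega) _ _ _⟩
  simp only [Win] at g3 g4 g5 g6 ⊢
  have e1 : c2 = c := g4.1.symm
  have e2 : c3 = c := g6.1.symm
  subst e1; subst e2
  have h5 : c3 + 1 < C := by omega
  have := hN _ h5
  have := d_ge c3
  have := d_ge e
  omega

theorem T_PXX {a c l c' l' : ℕ} (hN : 2 ≤ N) : T C N (.P a) (.X c l) (.X c' l') := by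
  intro c1 i1 c2 i2 c3 i3 v1 v2 v3 g1 g2 g3 g4 g5 g6
  left
  refine ⟨?_, uniq_PX (by omega) _ _ _⟩
  simp only [Win] at g1 g2 g3 g4 g5 g6 ⊢
  omega

theorem T_QXX {a c l c' l' : ℕ} (hN : ∀ c < C, 2 * d c + 10 ≤ N) :
    T C N (.Q a) (.X c l) (.X c' l') := by
  intro c1 i1 c2 i2 c3 i3 v1 v2 v3 g1 g2 g3 g4 g5 g6
  left
  refine ⟨?_, uniq_QX hN _ _ _⟩
  obtain ⟨w1, w2, w3⟩ := v1
  simp only [Win] at g1 g2 g3 g4 g5 g6 ⊢
  have e1 : c1 = c := g2.1.symm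
  have e2 : c2 = c := g3.1.symm
  have e3 : c' = c := by omega
  have e4 : c3 = c := by omega
  subst e1; subst e2; subst e3; subst e4
  have h5 : c3 + 1 < C := by omega
  have := hN _ h5
  omega

theorem T_XXX {c l c' l' c'' l'' : ℕ} (h1 : ¬ (c = c' ∧ l = l')) (h2 : ¬ (c' = c'' ∧ l' = l''))
    (h3 : ¬ (c = c'' ∧ l = l'')) : T C N (.X c l) (.X c' l') (.X c'' l'') := by
  intro c1 i1 c2 i2 c3 i3 v1 v2 v3 g1 g2 g3 g4 g5 g6
  by_cases hl : l = 2 ∨ l = 3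
  · left
    refine ⟨?_, uniq_XX _ _ _ _ hl⟩
    simp only [Win] at g1 g2 g3 g4 g5 g6 ⊢
    omega
  · by_cases hl' : l' = 2 ∨ l' = 3
    · left
      refine ⟨?_, (uniq_XX _ _ _ _ hl').symm⟩
      simp only [Win] at g1 g2 g3 g4 g5 g6 ⊢
      omega
    · have hl'' : l'' = 2 ∨ l'' = 3 := by
        simp only [Win] at g1 g2 g3 g4 g5 g6
        omega
      right; left
      refine ⟨?_, (uniq_XX _ _ _ _ hl'').symm⟩
      simp only [Win] at g1 g2 g3 g4 g5 g6 ⊢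
      omega

/-- The rank of a label. -/
def rank : Lab → ℕ
  | .P _ => 0
  | .Q _ => 1
  | .R _ => 2
  | .X _ _ => 3
  | .B _ => 4

theorem T_sorted (hN : ∀ c < C, 2 * d c + 10 ≤ N) (hN3 : 3 ≤ N) {u v w : Lab} (huv : u ≠ v)
    (hvw : v ≠ w) (huw : u ≠ w) (h1 : rank u ≤ rank v) (h2 : rank v ≤ rank w) : T C N u v w := by
  rcases u with a | a | a | ⟨a, a'⟩ | a <;> rcases v with b | b | b | ⟨b, b'⟩ | b <;>
    rcases w with c | c | c | ⟨c, c'⟩ | c <;>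
    simp only [rank] at h1 h2 <;>
    first
      | omega
      | (simp only [ne_eq, Lab.P.injEq, Lab.Q.injEq, Lab.R.injEq, Lab.X.injEq, Lab.B.injEq]
          at huv hvw huw
         first
          | exact T_PPP huv hvw huw hN3
          | exact T_QQQ huv hvw huw hN3
          | exact T_XXX huv hvw huw)
      | exact T_PPQ (fun e => huv (by rw [e]))
      | exact T_PPR (fun e => huv (by rw [e]))
      | exact T_PPX (fun e => huv (by rw [e])) (by omega)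
      | exact T_PQQ (fun e => hvw (by rw [e]))
      | exact T_PQR
      | exact T_PQX hN
      | exact T_PXX (by omega)
      | exact T_QQR (fun e => huv (by rw [e]))
      | exact T_QQX (fun e => huv (by rw [e])) hN
      | exact T_QXX hN
      | (intro c1 i1 c2 i2 c3 i3 v1 v2 v3 g1 g2 g3 g4 g5 g6
         exfalso
         simp only [Win] at g1 g2 g3 g4 g5 g6
         done)
      | (intro c1 i1 c2 i2 c3 i3 v1 v2 v3 g1 g2 g3 g4 g5 g6
         exfalso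
         simp only [Win] at g1 g2 g3 g4 g5 g6
         omega)
      | (intro c1 i1 c2 i2 c3 i3 v1 v2 v3 g1 g2 g3 g4 g5 g6
         exfalso
         simp only [Win] at g1 g2 g3 g4 g5 g6
         first
          | exact huv (congrArg _ (by omega))
          | exact hvw (congrArg _ (by omega))
          | exact huw (congrArg _ (by omega)))

theorem T_all (hN : ∀ c < C, 2 * d c + 10 ≤ N) (hN3 : 3 ≤ N) {u v w : Lab} (huv : u ≠ v)
    (hvw : v ≠ w) (huw : u ≠ w) : T C N u v w := by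
  rcases le_total (rank u) (rank v) with h1 | h1 <;>
  rcases le_total (rank v) (rank w) with h2 | h2 <;>
  rcases le_total (rank u) (rank w) with h3 | h3
  · exact T_sorted hN hN3 huv hvw huw h1 h2
  · exact T_sorted hN hN3 huv hvw huw h1 h2
  · -- u ≤ w ≤ v
    exact (T_sorted hN hN3 huw hvw.symm huv h3 h2).swap.rot
  · -- w ≤ u ≤ v
    exact (T_sorted hN hN3 huw.symm huv hvw.symm h3 h1).rot
  · -- v ≤ u ≤ w
    exact (T_sorted hN hN3 huv.symm huw hvw h1 h3).swap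
  · -- v ≤ w ≤ u
    exact (T_sorted hN hN3 hvw huw.symm huv.symm h2 h3).rot.rot
  · -- w ≤ v ≤ u
    exact (T_sorted hN hN3 hvw.symm huv.symm huw.symm h2 h1).swap.rot.rot
  · exact (T_sorted hN hN3 hvw.symm huv.symm huw.symm h2 h1).swap.rot.rot

end Pool.Agent.Q267.GBP2
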