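import Pool.Agent.Q267.GBP2.Chain

/-!
# A slow process: the lower bound
-/

namespace Pool.Agent.Q267.GBP2

open SimpleGraph Pool.Agent.Q267.GBP

/-- The vertex labels used. -/
def verts (C N : ℕ) : Finset Lab :=
  (Finset.range (N + 1)).image Lab.P ∪ (Finset.range (2 * N)).image Lab.Q ∪
    (Finset.range (3 * N)).image Lab.R ∪
    ((Finset.range C) ×ˢ (Finset.range 4)).image (fun p => Lab.X p.1 p.2) ∪
    (Finset.range 7).image Lab.B

theorem verts_card (C N : ℕ) : (verts C N).card ≤ 6 * N + 4 * C + 8 := by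
  unfold verts
  have h1 : ((Finset.range (N + 1)).image Lab.P).card ≤ N + 1 :=
    Finset.card_image_le.trans (by simp)
  have h2 : ((Finset.range (2 * N)).image Lab.Q).card ≤ 2 * N :=
    Finset.card_image_le.trans (by simp)
  have h3 : ((Finset.range (3 * N)).image Lab.R).card ≤ 3 * N :=
    Finset.card_image_le.trans (by simp)
  have h4 : (((Finset.range C) ×ˢ (Finset.range 4)).image (fun p => Lab.X p.1 p.2)).card ≤
      C * 4 := Finset.card_image_le.trans (by simp)
  have h5 : ((Finset.range 7).image Lab.B).card ≤ 7 :=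
    Finset.card_image_le.trans (by simp)
  refine (Finset.card_union_le _ _).trans ?_
  refine (Nat.add_le_add_right (Finset.card_union_le _ _) _).trans ?_
  refine (Nat.add_le_add_right (Nat.add_le_add_right (Finset.card_union_le _ _) _) _).trans ?_
  refine (Nat.add_le_add_right (Nat.add_le_add_right (Nat.add_le_add_right
    (Finset.card_union_le _ _) _) _) _).trans ?_
  omega

variable {C N : ℕ}

theorem mem_verts_P {a : ℕ} (h : a ≤ N) : Lab.P a ∈ verts C N := by
  simp only [verts, Finset.mem_union, Finset.mem_image, Finset.mem_range]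
  exact Or.inl (Or.inl (Or.inl (Or.inl ⟨a, by omega, rfl⟩)))

theorem mem_verts_Q {a : ℕ} (h : a < 2 * N) : Lab.Q a ∈ verts C N := by
  simp only [verts, Finset.mem_union, Finset.mem_image, Finset.mem_range]
  exact Or.inl (Or.inl (Or.inl (Or.inr ⟨a, by omega, rfl⟩)))

theorem mem_verts_R {a : ℕ} (h : a < 3 * N) : Lab.R a ∈ verts C N := by
  simp only [verts, Finset.mem_union, Finset.mem_image, Finset.mem_range]
  exact Or.inl (Or.inl (Or.inr ⟨a, by omega, rfl⟩))

theorem mem_verts_X {c l : ℕ} (h : c < C) (hl : l < 4) : Lab.X c l ∈ verts C N := by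
  simp only [verts, Finset.mem_union, Finset.mem_image, Finset.mem_range, Finset.mem_product]
  exact Or.inl (Or.inr ⟨(c, l), ⟨h, hl⟩, rfl⟩)

theorem mem_verts_B {l : ℕ} (hl : l < 7) : Lab.B l ∈ verts C N := by
  simp only [verts, Finset.mem_union, Finset.mem_image, Finset.mem_range]
  exact Or.inr ⟨l, hl, rfl⟩

theorem win_verts (hN : ∀ c < C, 2 * d c + 10 ≤ N) {c i : ℕ} (hv : Valid C N c i) {u : Lab}
    (hu : Win N c i u) : u ∈ verts C N := by
  obtain ⟨v1, v2, v3⟩ := hv
  have h1 := hN c v1
  rcases u with a | a | a | ⟨a, l⟩ | a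
  · apply mem_verts_P
    simp only [Win] at hu
    omega
  · apply mem_verts_Q
    simp only [Win] at hu
    rcases hu with ⟨g1, g2⟩ | ⟨g1, g2⟩ | ⟨g1, g2⟩
    · omega
    · omega
    · have := hN (c + 1) (v3 (by omega))
      omega
  · apply mem_verts_R
    simp only [Win] at hu
    omega
  · simp only [Win] at hu
    apply mem_verts_X <;> omega
  · exact hu.elim

variable {V : Type*} [Fintype V] [DecidableEq V] {lab : V → Lab}

theorem dyn_det {c i : ℕ} {u v u' v' : Lab} (h : Dyn C N c i u v) (h' : Dyn C N c i u' v') :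
    u = u' ∧ v = v' := by
  rcases h with ⟨h1, h2, rfl, rfl⟩ | ⟨h1, h2, rfl, rfl⟩
  · rcases h' with ⟨g1, g2, rfl, rfl⟩ | ⟨g1, g2, rfl, rfl⟩
    · exact ⟨rfl, rfl⟩
    · omega
  · rcases h' with ⟨g1, g2, rfl, rfl⟩ | ⟨g1, g2, rfl, rfl⟩
    · omega
    · exact ⟨rfl, rfl⟩

theorem dyn_le {c i : ℕ} {u v : Lab} (h : Dyn C N c i u v) : i ≤ N + 1 := by
  rcases h with ⟨h1, _⟩ | ⟨h1, _⟩ <;> omega

/-- The window before a dynamic pair. -/
theorem dyn_pred {c i : ℕ} {u v : Lab} (h : Dyn C N c i u v) (hpos : 0 < tau N c i) :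
    ∃ c' i', Valid C N c' i' ∧ tau N c' i' + 1 = tau N c i ∧ Win N c' i' u ∧ Win N c' i' v := by
  have hwin : ∀ c' i', Valid C N c' i' → tau N c' i' + 1 = tau N c i →
      Win N c' i' u ∧ Win N c' i' v := by
    intro c' i' hv ht
    obtain ⟨c2, i2, u2, v2, h2, t2, w1, w2⟩ := dyn_snd hv
    obtain ⟨e1, e2⟩ := tau_inj (dyn_le h2) (dyn_le h) (by rw [t2, ht])
    subst e1; subst e2
    obtain ⟨e1, e2⟩ := dyn_det h2 h
    subst e1; subst e2
    exact ⟨w1, w2⟩
  rcases Nat.eq_zero_or_pos i with hi | hi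
  · have hc : 0 < c := by
      rcases Nat.eq_zero_or_pos c with hc | hc
      · subst hc; subst hi; simp [tau] at hpos
      · exact hc
    have hcC : c < C := by
      rcases h with ⟨_, h2, _⟩ | ⟨h1, h2, _⟩ <;> omega
    have hv : Valid C N (c - 1) (N + 1) := ⟨by omega, le_refl _, fun _ => by omega⟩
    have ht : tau N (c - 1) (N + 1) + 1 = tau N c i := by
      obtain ⟨c1, rfl⟩ : ∃ c1, c = c1 + 1 := ⟨c - 1, by omega⟩
      subst hi
      unfold tau
      simp only [Nat.add_sub_cancel]
      ring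
    exact ⟨_, _, hv, ht, hwin _ _ hv ht⟩
  · have hv : Valid C N c (i - 1) := by
      rcases h with ⟨h1, h2, _⟩ | ⟨h1, h2, _⟩
      · exact ⟨h2, by omega, fun _ => by omega⟩
      · exact ⟨by omega, by omega, fun _ => h2⟩
    have ht : tau N c (i - 1) + 1 = tau N c i := by
      unfold tau
      omega
    exact ⟨_, _, hv, ht, hwin _ _ hv ht⟩

theorem stable_dyn (hN : ∀ c < C, 2 * d c + 10 ≤ N) (hN3 : 3 ≤ N) (hC : 0 < C)
    (hlab : Function.Injective lab) (hs : ∀ u ∈ verts C N, ∃ x, lab x = u)
    {G : SimpleGraph V} (h0 : GT lab C N 0 ≤ G) (hst : G = infect HX G) :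
    ∀ s c i x y, Dyn C N c i (lab x) (lab y) → tau N c i = s → G.Adj x y := by
  intro s
  induction s using Nat.strong_induction_on with
  | _ s ih =>
    intro c i x y hd ht
    rcases Nat.eq_zero_or_pos s with hs0 | hs0
    · apply h0
      have hz : tau N c i = tau N 0 0 := by rw [ht, hs0]; simp [tau]
      obtain ⟨e1, e2⟩ := tau_inj (dyn_le hd) (by omega) hz
      subst e1; subst e2
      refine ⟨dyn_ne hd, Or.inl ⟨?_, ?_⟩⟩
      · have hv : Valid C N 0 0 := ⟨hC, by omega, fun h => by omega⟩
        obtain ⟨u, v, hd', w1, w2⟩ := dyn_fst hv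
        obtain ⟨e1, e2⟩ := dyn_det hd' hd
        rw [e1] at w1
        rw [e2] at w2
        exact ⟨0, 0, hv, w1, w2⟩
      · intro c' i' hh
        rcases hh with hh | hh
        · obtain ⟨e1, e2⟩ := dyn_unique hh hd
          rw [e1, e2]; simp [tau]
        · exact (dyn_symm_false hh hd).elim
    · obtain ⟨c', i', hv, ht', w1, w2⟩ := dyn_pred hd (by omega)
      -- the window
      let F : Finset V := Finset.univ.filter (fun z => lab z ∈ elems N c' i')
      have hF : ∀ z, z ∈ F ↔ Win N c' i' (lab z) := by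
        intro z
        simp only [F, Finset.mem_filter, Finset.mem_univ, true_and]
        exact (win_iff hv.2.1 _).symm
      have hF5 : F.card = 5 := by
        have himg : F.image lab = elems N c' i' := by
          ext u
          rw [Finset.mem_image]
          constructor
          · rintro ⟨z, hz, rfl⟩
            exact (win_iff hv.2.1 _).1 ((hF z).1 hz)
          · intro hu
            have hw := (win_iff hv.2.1 u).2 hu
            obtain ⟨z, rfl⟩ := hs u (win_verts hN hv hw)
            exact ⟨z, (hF z).2 hw, rfl⟩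
        rw [← elems_card_eq N c' i', ← himg, Finset.card_image_of_injective _ hlab]
      let Q : Finset V := Finset.univ.filter (fun z => ∃ l ∈ Finset.range 7, lab z = .B l)
      have hQ : ∀ z, z ∈ Q ↔ ∃ l ∈ Finset.range 7, lab z = .B l := by
        intro z
        simp only [Q, Finset.mem_filter, Finset.mem_univ, true_and]
      have hQ7 : 7 ≤ Q.card := by
        have himg : (Finset.range 7).image Lab.B ⊆ Q.image lab := by
          intro u hu
          obtain ⟨l, hl, rfl⟩ := Finset.mem_image.1 hu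
          obtain ⟨z, hz⟩ := hs (.B l) (mem_verts_B (Finset.mem_range.1 hl))
          exact Finset.mem_image.2 ⟨z, (hQ z).2 ⟨l, hl, hz⟩, hz⟩
        have h1 := Finset.card_le_card himg
        rw [Finset.card_image_of_injective _ hlab, Finset.card_image_of_injective _
          (fun a b h => Lab.B.inj h), Finset.card_range] at h1
        exact h1
      have hQc : Clq G Q := by
        intro p hp q hq hpq
        obtain ⟨l, _, hl⟩ := (hQ p).1 hp
        obtain ⟨l', _, hl'⟩ := (hQ q).1 hq
        exact h0 ⟨fun e => hpq (hlab e), Or.inr ⟨l, l', hl, hl'⟩⟩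
      have hdisj : Disjoint F Q := by
        rw [Finset.disjoint_left]
        intro z hz hz'
        obtain ⟨l, _, hl⟩ := (hQ z).1 hz'
        have := (hF z).1 hz
        rw [hl] at this
        exact this
      have hxy : x ≠ y := fun e => dyn_ne hd (by rw [e])
      have hstep : (infect HX G).Adj x y := by
        refine five_step hQc hQ7 hF5 hdisj ((hF x).2 w1) ((hF y).2 w2) hxy ?_
        intro p hp q hq hpq
        have wp := (hF p).1 hp
        have wq := (hF q).1 hq
        by_cases hdy : ∃ c2 i2, Dyn C N c2 i2 (lab p) (lab q)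
        · obtain ⟨c2, i2, hd2⟩ := hdy
          rcases dyn_win hd2 hv wp wq with h1 | h1
          · exact Or.inl (ih _ (by omega) c2 i2 p q hd2 rfl)
          · obtain ⟨e1, e2⟩ := tau_inj (c := c2) (c' := c) (dyn_le hd2) (dyn_le hd) (by omega)
            subst e1; subst e2
            obtain ⟨e1, e2⟩ := dyn_det hd2 hd
            rw [hlab e1, hlab e2]
            exact Or.inr rfl
        · by_cases hdy' : ∃ c2 i2, Dyn C N c2 i2 (lab q) (lab p)
          · obtain ⟨c2, i2, hd2⟩ := hdy'
            rcases dyn_win hd2 hv wq wp with h1 | h1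
            · exact Or.inl (ih _ (by omega) c2 i2 q p hd2 rfl).symm
            · obtain ⟨e1, e2⟩ := tau_inj (c := c2) (c' := c) (dyn_le hd2) (dyn_le hd) (by omega)
              subst e1; subst e2
              obtain ⟨e1, e2⟩ := dyn_det hd2 hd
              rw [hlab e1, hlab e2]
              exact Or.inr Sym2.eq_swap
          · refine Or.inl (h0 ⟨fun e => hpq (hlab e), Or.inl ⟨⟨c', i', hv, wp, wq⟩, ?_⟩⟩)
            rintro c2 i2 (h2 | h2)
            · exact absurd ⟨c2, i2, h2⟩ hdy
            · exact absurd ⟨c2, i2, h2⟩ hdy'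
      rw [hst]
      exact hstep

/-- The running time is at least `C * (N + 2) + N` with `C + 1` slopes. -/
theorem time_ge (C N : ℕ) (hN : ∀ c < C + 1, 2 * d c + 10 ≤ N) (hN3 : 3 ≤ N)
    (hlab : Function.Injective lab) (hs : ∀ u ∈ verts (C + 1) N, ∃ x, lab x = u) :
    C * (N + 2) + N ≤ runTime HX (GT lab (C + 1) N 0) := by
  apply le_runTime
  intro t ht hst
  have hle := proc_le hN hN3 hlab t
  have h0 : GT lab (C + 1) N 0 ≤ proc HX (GT lab (C + 1) N 0) t := proc_mono _ (Nat.zero_le t)
  have hN' := hN C (Nat.lt_succ_self C)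
  obtain ⟨x, hx⟩ := hs (.P N) (mem_verts_P (le_refl N))
  obtain ⟨y, hy⟩ := hs (.Q (N + d C)) (mem_verts_Q (by omega))
  have hd : Dyn (C + 1) N C N (lab x) (lab y) :=
    Or.inl ⟨le_refl _, Nat.lt_succ_self C, hx, hy⟩
  have hadj := stable_dyn hN hN3 (Nat.succ_pos C) hlab hs h0 hst _ C N x y hd rfl
  have hadj' := hle hadj
  rcases hadj'.2 with ⟨_, h3⟩ | ⟨l, l', h3, _⟩
  · have := h3 C N (Or.inl hd)
    unfold tau at this
    omega
  · rw [hx] at h3
    cases h3

end Pool.Agent.Q267.GBP2
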