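import Pool.Agent.Q267.GBP.Basic

/-!
# The rule `K_5 ⊔ K`, where `K` is `K_6` with a further vertex joined to two of its vertices
-/

namespace Pool.Agent.Q267.GBP2

open SimpleGraph Pool.Agent.Q267.GBP

/-- The disjoint union of `K_5` (on `0, …, 4`) and of the graph obtained from `K_6`
(on `5, …, 10`) by adding the vertex `11` joined to `5` and `6`. -/
def HX : SimpleGraph (Fin 12) where
  Adj a b := a ≠ b ∧ ((a.val < 5 ∧ b.val < 5) ∨
    (5 ≤ a.val ∧ a.val ≤ 10 ∧ 5 ≤ b.val ∧ b.val ≤ 10) ∨
    (a.val = 11 ∧ (b.val = 5 ∨ b.val = 6)) ∨ (b.val = 11 ∧ (a.val = 5 ∨ a.val = 6)))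
  symm := by
    constructor
    rintro a b ⟨h, h'⟩
    exact ⟨h.symm, by omega⟩
  loopless := by
    constructor
    rintro a ⟨h, _⟩
    exact h rfl

variable {V : Type*} [DecidableEq V]

/-- The data of a copy of `HX` in `G + xy`. -/
structure Cop (A : V → V → Prop) (F C : Finset V) (v a b : V) : Prop where
  cardF : F.card = 5
  cardC : C.card = 6
  disj : Disjoint F C
  vF : v ∉ F
  vC : v ∉ C
  aC : a ∈ C
  bC : b ∈ C
  ab : a ≠ b
  cliqueF : ∀ p ∈ F, ∀ q ∈ F, p ≠ q → A p q
  cliqueC : ∀ p ∈ C, ∀ q ∈ C, p ≠ q → A p q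
  va : A v a
  vb : A v b

/-- The map `Fin 12 → V` given by a list. -/
theorem usesCopy_of_cop {G : SimpleGraph V} {x y : V} {F C : Finset V} {v a b : V}
    (h : Cop (AddAdj G x y) F C v a b)
    (hu : (x ≠ y ∧ x ∈ F ∧ y ∈ F) ∨ (x ≠ y ∧ x ∈ C ∧ y ∈ C) ∨ s(v, a) = s(x, y) ∨
      s(v, b) = s(x, y)) :
    UsesCopy HX G x y := by
  classical
  obtain ⟨l, hl⟩ : ∃ l : List V, l = F.toList ++ ([a, b] ++ ((C \ {a, b}).toList ++ [v])) :=
    ⟨_, rfl⟩
  have hsub : ({a, b} : Finset V) ⊆ C := by
    intro z hz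
    rw [Finset.mem_insert, Finset.mem_singleton] at hz
    rcases hz with rfl | rfl
    · exact h.aC
    · exact h.bC
  have hcard2 : ({a, b} : Finset V).card = 2 := Finset.card_pair h.ab
  have hcard4 : (C \ {a, b}).card = 4 := by
    rw [Finset.card_sdiff_of_subset hsub, hcard2, h.cardC]
  have hlen : l.length = 12 := by
    rw [hl]; simp [h.cardF, hcard4]
  have hnd : l.Nodup := by
    rw [hl, List.nodup_append]
    refine ⟨F.nodup_toList, ?_, ?_⟩
    · rw [List.nodup_append]
      refine ⟨by simp [h.ab], ?_, ?_⟩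
      · rw [List.nodup_append]
        refine ⟨(C \ {a, b}).nodup_toList, by simp, ?_⟩
        intro p hp q hq hpq
        rw [Finset.mem_toList, Finset.mem_sdiff] at hp
        rw [List.mem_singleton] at hq
        rw [hpq, hq] at hp
        exact h.vC hp.1
      · intro p hp q hq hpq
        rw [List.mem_append, Finset.mem_toList, List.mem_singleton, Finset.mem_sdiff] at hq
        have hp' : p ∈ C := by
          simp only [List.mem_cons, List.not_mem_nil, or_false] at hp
          rcases hp with rfl | rfl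
          · exact h.aC
          · exact h.bC
        rcases hq with hq | hq
        · apply hq.2
          rw [← hpq]
          simpa using hp
        · rw [← hpq] at hq
          exact h.vC (hq ▸ hp')
    · intro p hp q hq hpq
      rw [Finset.mem_toList] at hp
      have hq' : q ∈ C ∨ q = v := by
        simp only [List.mem_append, List.mem_cons, List.not_mem_nil, or_false, Finset.mem_toList,
          Finset.mem_sdiff] at hq
        rcases hq with (rfl | rfl) | ⟨hq, _⟩ | rfl
        · exact Or.inl h.aC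
        · exact Or.inl h.bC
        · exact Or.inl hq
        · exact Or.inr rfl
      rcases hq' with hq' | hq'
      · exact (Finset.disjoint_left.1 h.disj) hp (hpq ▸ hq')
      · exact h.vF (hq' ▸ hpq ▸ hp)
  have hget : ∀ i : Fin 12, i.val < l.length := fun i => by rw [hlen]; exact i.isLt
  let f : Fin 12 → V := fun i => l[i.val]'(hget i)
  have hFlen : F.toList.length = 5 := by simp [h.cardF]
  have hClen : (C \ {a, b}).toList.length = 4 := by simp [hcard4]
  have f1 : ∀ i : Fin 12, i.val < 5 → f i ∈ F := by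
    intro i hi
    have : f i = F.toList[i.val]'(by omega) := by
      change l[i.val]'(hget i) = _
      simp only [hl]
      exact List.getElem_append_left (by omega)
    rw [this, ← Finset.mem_toList]
    exact List.getElem_mem _
  have f5 : f 5 = a := by
    change l[5]'(hget 5) = a
    simp only [hl]
    rw [List.getElem_append_right (by omega)]
    simp [hFlen]
  have f6 : f 6 = b := by
    change l[6]'(hget 6) = b
    simp only [hl]
    rw [List.getElem_append_right (by omega)]
    simp [hFlen]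
  have f11 : f 11 = v := by
    change l[11]'(hget 11) = v
    simp only [hl]
    rw [List.getElem_append_right (by omega)]
    simp only [hFlen]
    rw [List.getElem_append_right (by simp)]
    simp only [List.length_cons, List.length_nil]
    rw [List.getElem_append_right (by rw [hClen])]
    simp
  have f2 : ∀ i : Fin 12, 5 ≤ i.val → i.val ≤ 10 → f i ∈ C := by
    intro i hi hi'
    by_cases h5 : i = 5
    · rw [h5, f5]; exact h.aC
    by_cases h6 : i = 6
    · rw [h6, f6]; exact h.bC
    have h5' : i.val ≠ 5 := fun hh => h5 (Fin.ext hh)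
    have h6' : i.val ≠ 6 := fun hh => h6 (Fin.ext hh)
    have hi7 : 7 ≤ i.val := by omega
    have : f i = (C \ {a, b}).toList[i.val - 7]'(by omega) := by
      change l[i.val]'(hget i) = _
      simp only [hl]
      rw [List.getElem_append_right (by omega)]
      rw [List.getElem_append_right (by simp [hFlen]; omega)]
      simp only [hFlen, List.length_cons, List.length_nil]
      rw [List.getElem_append_left (by omega)]
      congr 1
    rw [this]
    have hm : (C \ {a, b}).toList[i.val - 7]'(by omega) ∈ (C \ {a, b}).toList :=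
      List.getElem_mem _
    rw [Finset.mem_toList, Finset.mem_sdiff] at hm
    exact hm.1
  have hinj : Function.Injective f := by
    intro i j hij
    have := (List.Nodup.getElem_inj_iff hnd).1 hij
    exact Fin.ext this
  refine ⟨f, hinj, ?_, ?_⟩
  · rintro i j ⟨hij, hh⟩
    have hne : f i ≠ f j := fun e => hij (hinj e)
    rcases hh with ⟨h1, h2⟩ | ⟨h1, h2, h3, h4⟩ | ⟨h1, h2⟩ | ⟨h1, h2⟩
    · exact h.cliqueF _ (f1 i h1) _ (f1 j h2) hne
    · exact h.cliqueC _ (f2 i h1 h2) _ (f2 j h3 h4) hne
    · have e1 : i = 11 := Fin.ext h1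
      rcases h2 with h2 | h2
      · have e2 : j = 5 := Fin.ext h2
        rw [e1, e2, f11, f5]; exact h.va
      · have e2 : j = 6 := Fin.ext h2
        rw [e1, e2, f11, f6]; exact h.vb
    · have e1 : j = 11 := Fin.ext h1
      rcases h2 with h2 | h2
      · have e2 : i = 5 := Fin.ext h2
        rw [e1, e2, f11, f5]
        exact AddAdj.symm h.va
      · have e2 : i = 6 := Fin.ext h2
        rw [e1, e2, f11, f6]
        exact AddAdj.symm h.vb
  · -- surjectivity onto `F` and `C`
    have sF : ∀ z ∈ F, ∃ i : Fin 12, i.val < 5 ∧ f i = z := by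
      intro z hz
      rw [← Finset.mem_toList] at hz
      obtain ⟨i, hi, hiz⟩ := List.getElem_of_mem hz
      refine ⟨⟨i, by omega⟩, by rw [← hFlen]; exact hi, ?_⟩
      change l[i]'_ = z
      simp only [hl]
      rw [List.getElem_append_left hi]
      exact hiz
    have sC : ∀ z ∈ C, ∃ i : Fin 12, 5 ≤ i.val ∧ i.val ≤ 10 ∧ f i = z := by
      intro z hz
      by_cases hza : z = a
      · exact ⟨5, by decide, by decide, by rw [f5, hza]⟩
      by_cases hzb : z = b
      · exact ⟨6, by decide, by decide, by rw [f6, hzb]⟩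
      have hz' : z ∈ (C \ {a, b}).toList := by
        rw [Finset.mem_toList, Finset.mem_sdiff, Finset.mem_insert, Finset.mem_singleton]
        exact ⟨hz, by tauto⟩
      obtain ⟨i, hi, hiz⟩ := List.getElem_of_mem hz'
      refine ⟨⟨i + 7, by omega⟩, by simp, by simp; omega, ?_⟩
      change l[i + 7]'_ = z
      simp only [hl]
      rw [List.getElem_append_right (by omega)]
      rw [List.getElem_append_right (by simp [hFlen])]
      simp only [hFlen, List.length_cons, List.length_nil]
      rw [List.getElem_append_left (by omega)]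
      rw [← hiz]
      congr 1
    rcases hu with ⟨hxy, hx, hy⟩ | ⟨hxy, hx, hy⟩ | hu | hu
    · obtain ⟨i, hi, rfl⟩ := sF x hx
      obtain ⟨j, hj, rfl⟩ := sF y hy
      exact ⟨i, j, ⟨fun e => hxy (congrArg f e), Or.inl ⟨hi, hj⟩⟩, rfl⟩
    · obtain ⟨i, hi, hi', rfl⟩ := sC x hx
      obtain ⟨j, hj, hj', rfl⟩ := sC y hy
      exact ⟨i, j, ⟨fun e => hxy (congrArg f e), Or.inr (Or.inl ⟨hi, hi', hj, hj'⟩)⟩, rfl⟩
    · refine ⟨11, 5, ⟨by decide, Or.inr (Or.inr (Or.inl ⟨rfl, Or.inl rfl⟩))⟩, ?_⟩
      rw [f11, f5]; exact hu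
    · refine ⟨11, 6, ⟨by decide, Or.inr (Or.inr (Or.inl ⟨rfl, Or.inr rfl⟩))⟩, ?_⟩
      rw [f11, f6]; exact hu

theorem cop_of_usesCopy {G : SimpleGraph V} {x y : V} (h : UsesCopy HX G x y) :
    ∃ F C v a b, Cop (AddAdj G x y) F C v a b ∧
      ((x ∈ F ∧ y ∈ F) ∨ (x ∈ C ∧ y ∈ C) ∨ s(v, a) = s(x, y) ∨ s(v, b) = s(x, y)) := by
  obtain ⟨f, hf, h1, p, q, hpq, hs⟩ := h
  let SF : Finset (Fin 12) := Finset.univ.filter (fun i => i.val < 5)
  let SC : Finset (Fin 12) := Finset.univ.filter (fun i => 5 ≤ i.val ∧ i.val ≤ 10)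
  refine ⟨SF.image f, SC.image f, f 11, f 5, f 6, ⟨?_, ?_, ?_, ?_, ?_, ?_, ?_, ?_, ?_, ?_, ?_, ?_⟩,
    ?_⟩
  · rw [Finset.card_image_of_injective _ hf]; rfl
  · rw [Finset.card_image_of_injective _ hf]; rfl
  · rw [Finset.disjoint_image hf]; decide
  · rw [Finset.mem_image]
    rintro ⟨i, hi, he⟩
    have := hf he
    subst this
    revert hi; decide
  · rw [Finset.mem_image]
    rintro ⟨i, hi, he⟩
    have := hf he
    subst this
    revert hi; decide
  · exact Finset.mem_image_of_mem f (by decide)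
  · exact Finset.mem_image_of_mem f (by decide)
  · exact fun e => absurd (hf e) (by decide)
  · intro u hu v hv huv
    obtain ⟨i, hi, rfl⟩ := Finset.mem_image.1 hu
    obtain ⟨j, hj, rfl⟩ := Finset.mem_image.1 hv
    rw [Finset.mem_filter] at hi hj
    exact h1 i j ⟨fun e => huv (congrArg f e), Or.inl ⟨hi.2, hj.2⟩⟩
  · intro u hu v hv huv
    obtain ⟨i, hi, rfl⟩ := Finset.mem_image.1 hu
    obtain ⟨j, hj, rfl⟩ := Finset.mem_image.1 hv
    rw [Finset.mem_filter] at hi hj
    exact h1 i j ⟨fun e => huv (congrArg f e), Or.inr (Or.inl ⟨hi.2.1, hi.2.2, hj.2.1, hj.2.2⟩)⟩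
  · exact h1 11 5 ⟨by decide, by decide⟩
  · exact h1 11 6 ⟨by decide, by decide⟩
  · obtain ⟨hne, hh⟩ := hpq
    have key : ∀ (S : Finset (Fin 12)), p ∈ S → q ∈ S → x ∈ S.image f ∧ y ∈ S.image f := by
      intro S hp hq
      rcases Sym2.eq_iff.1 hs with ⟨e1, e2⟩ | ⟨e1, e2⟩
      · rw [← e1, ← e2]
        exact ⟨Finset.mem_image_of_mem f hp, Finset.mem_image_of_mem f hq⟩
      · rw [← e1, ← e2]
        exact ⟨Finset.mem_image_of_mem f hq, Finset.mem_image_of_mem f hp⟩
    rcases hh with ⟨h1, h2⟩ | ⟨h1, h2, h3, h4⟩ | ⟨h1, h2⟩ | ⟨h1, h2⟩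
    · left
      exact key SF (by simp [SF, h1]) (by simp [SF, h2])
    · right; left
      exact key SC (by simp [SC, h1, h2]) (by simp [SC, h3, h4])
    · right; right
      have e1 : p = 11 := Fin.ext h1
      rcases h2 with h2 | h2
      · left
        have e2 : q = 5 := Fin.ext h2
        rw [← hs, e1, e2]
      · right
        have e2 : q = 6 := Fin.ext h2
        rw [← hs, e1, e2]
    · right; right
      have e1 : q = 11 := Fin.ext h1
      rcases h2 with h2 | h2
      · left
        have e2 : p = 5 := Fin.ext h2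
        rw [← hs, e1, e2, Sym2.eq_swap]
      · right
        have e2 : p = 6 := Fin.ext h2
        rw [← hs, e1, e2, Sym2.eq_swap]

end Pool.Agent.Q267.GBP2
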