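import Pool.Agent.Q267.GBP.Basic

/-!
# Transport of the process along a bijection
-/

namespace Pool.Agent.Q267.GBP2

open SimpleGraph Pool.Agent.Q267.GBP

theorem usesCopy_comap {W V V' : Type*} {H : SimpleGraph W} {G : SimpleGraph V} (e : V' ≃ V)
    {x y : V'} : UsesCopy H (G.comap e) x y ↔ UsesCopy H G (e x) (e y) := by
  have hs : ∀ p q : V', s(e p, e q) = s(e x, e y) ↔ s(p, q) = s(x, y) := by
    intro p q
    constructor
    · intro h
      have := congrArg (Sym2.map e.symm) h
      simpa using this
    · intro h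
      exact congrArg (Sym2.map e) h
  constructor
  · rintro ⟨f, hf, h1, a, b, hab, h2⟩
    refine ⟨fun w => e (f w), fun a b h => hf (e.injective h), ?_, a, b, hab, (hs _ _).2 h2⟩
    intro a b hab
    rcases h1 a b hab with h | h
    · exact Or.inl h
    · exact Or.inr ((hs _ _).2 h)
  · rintro ⟨f, hf, h1, a, b, hab, h2⟩
    have key : ∀ w, e (e.symm (f w)) = f w := fun w => e.apply_symm_apply _
    refine ⟨fun w => e.symm (f w), fun a b h => hf (e.symm.injective h), ?_, a, b, hab, ?_⟩
    · intro a b hab
      rcases h1 a b hab with h | h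
      · left
        change G.Adj (e (e.symm (f a))) (e (e.symm (f b)))
        rw [key, key]; exact h
      · right
        rw [← hs, key, key]; exact h
    · rw [← hs, key, key]; exact h2

theorem infect_comap {W V V' : Type*} [Finite V] [Finite V'] {H : SimpleGraph W}
    {G : SimpleGraph V} (e : V' ≃ V) : infect H (G.comap e) = (infect H G).comap e := by
  ext x y
  rw [infect_adj_iff, SimpleGraph.comap_adj, SimpleGraph.comap_adj, infect_adj_iff,
    usesCopy_comap e]
  constructor
  · rintro (h | ⟨h1, h2⟩)
    · exact Or.inl h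
    · exact Or.inr ⟨fun h => h1 (e.injective h), h2⟩
  · rintro (h | ⟨h1, h2⟩)
    · exact Or.inl h
    · exact Or.inr ⟨fun h => h1 (congrArg e h), h2⟩

theorem proc_comap {W V V' : Type*} [Finite V] [Finite V'] {H : SimpleGraph W}
    {G : SimpleGraph V} (e : V' ≃ V) (t : ℕ) : proc H (G.comap e) t = (proc H G t).comap e := by
  induction t with
  | zero => rfl
  | succ t ih =>
    change infect H (proc H (G.comap e) t) = (infect H (proc H G t)).comap e
    rw [ih, infect_comap]

theorem comap_inj {V V' : Type*} (e : V' ≃ V) {G G' : SimpleGraph V}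
    (h : G.comap e = G'.comap e) : G = G' := by
  ext x y
  have h1 : (G.comap e).Adj (e.symm x) (e.symm y) ↔ (G'.comap e).Adj (e.symm x) (e.symm y) := by
    rw [h]
  rw [SimpleGraph.comap_adj, SimpleGraph.comap_adj, e.apply_symm_apply, e.apply_symm_apply] at h1
  exact h1

theorem runTime_comap {W V V' : Type*} [Finite V] [Finite V'] {H : SimpleGraph W}
    {G : SimpleGraph V} (e : V' ≃ V) : runTime H (G.comap e) = runTime H G := by
  unfold runTime
  congr 1
  ext t
  rw [Set.mem_setOf_eq, Set.mem_setOf_eq, proc_comap, proc_comap]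
  exact ⟨fun h => comap_inj e h, fun h => by rw [h]⟩

theorem runTime_le_maxTime {W V : Type*} [Fintype V] {H : SimpleGraph W} (G : SimpleGraph V)
    {n : ℕ} (hn : Fintype.card V = n) : runTime H G ≤ maxTime H n := by
  have e : Fin n ≃ V := (Fintype.equivFinOfCardEq hn).symm
  rw [← runTime_comap e]
  exact le_csSup (Set.toFinite _).bddAbove ⟨_, rfl⟩

end Pool.Agent.Q267.GBP2
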