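import Pool.Agent.Q267.GBP2.Rule

/-!
# Percolating graphs percolate in linear time
-/

namespace Pool.Agent.Q267.GBP2

open SimpleGraph Pool.Agent.Q267.GBP

variable {V : Type*} [Fintype V] [DecidableEq V]

/-- `S` spans a clique of `G`. -/
def Clq (G : SimpleGraph V) (S : Finset V) : Prop := ∀ p ∈ S, ∀ q ∈ S, p ≠ q → G.Adj p q

omit [Fintype V] [DecidableEq V] in
theorem Clq.mono {G G' : SimpleGraph V} {S : Finset V} (h : G ≤ G') (hS : Clq G S) : Clq G' S :=
  fun p hp q hq hpq => h (hS p hp q hq hpq)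

omit [Fintype V] [DecidableEq V] in
theorem Clq.subset {G : SimpleGraph V} {S T : Finset V} (h : T ⊆ S) (hS : Clq G S) : Clq G T :=
  fun p hp q hq hpq => hS p (h hp) q (h hq) hpq

theorem k_step {G : SimpleGraph V} {C F : Finset V} (hC : Clq G C) (hC6 : C.card = 6)
    (hF : Clq G F) (hF5 : F.card = 5) (hd : Disjoint F C) {v a b : V} (hvC : v ∉ C)
    (hvF : v ∉ F) (ha : a ∈ C) (hb : b ∈ C) (hab : a ≠ b) (hva : G.Adj v a) :
    (infect HX G).Adj v b := by
  rw [infect_adj_iff]
  have hvb : v ≠ b := fun e => hvC (e ▸ hb)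
  refine Or.inr ⟨hvb, usesCopy_of_cop (F := F) (C := C) (v := v) (a := a) (b := b)
    ⟨hF5, hC6, hd, hvF, hvC, ha, hb, hab, ?_, ?_, Or.inl hva, Or.inr rfl⟩
    (Or.inr (Or.inr (Or.inr rfl)))⟩
  · exact fun p hp q hq hpq => Or.inl (hF p hp q hq hpq)
  · exact fun p hp q hq hpq => Or.inl (hC p hp q hq hpq)

theorem grow {G : SimpleGraph V} {Q F : Finset V} (hQ : Clq G Q) (hc : 6 ≤ Q.card)
    (hF : Clq G F) (hF5 : F.card = 5) (hd : Disjoint F Q) {v q : V} (hvQ : v ∉ Q)
    (hvF : v ∉ F) (hq : q ∈ Q) (hvq : G.Adj v q) : Clq (infect HX G) (insert v Q) := by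
  have key : ∀ p ∈ Q, (infect HX G).Adj v p := by
    intro p hp
    by_cases hpq : q = p
    · subst hpq; exact le_infect hvq
    · have hsub : ({q, p} : Finset V) ⊆ Q := by
        intro z hz
        rw [Finset.mem_insert, Finset.mem_singleton] at hz
        rcases hz with rfl | rfl
        · exact hq
        · exact hp
      obtain ⟨C, h1, h2, h3⟩ := Finset.exists_subsuperset_card_eq hsub
        (by rw [Finset.card_pair hpq]; norm_num : ({q, p} : Finset V).card ≤ 6) hc
      exact k_step (hQ.subset h2) h3 hF hF5 (Finset.disjoint_of_subset_right h2 hd)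
        (fun h => hvQ (h2 h)) hvF (h1 (by simp)) (h1 (by simp)) hpq hvq
  intro p hp p' hp' hne
  rw [Finset.mem_insert] at hp hp'
  rcases hp with rfl | hp
  · rcases hp' with rfl | hp'
    · exact absurd rfl hne
    · exact key p' hp'
  · rcases hp' with rfl | hp'
    · exact (key p hp).symm
    · exact le_infect (hQ p hp p' hp' hne)

theorem grow_big {G : SimpleGraph V} {Q : Finset V} (hQ : Clq G Q) (hc : 11 ≤ Q.card)
    {v q : V} (hvQ : v ∉ Q) (hq : q ∈ Q) (hvq : G.Adj v q) :
    Clq (infect HX G) (insert v Q) := by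
  have key : ∀ p ∈ Q, (infect HX G).Adj v p := by
    intro p hp
    by_cases hpq : q = p
    · subst hpq; exact le_infect hvq
    · have hsub : ({q, p} : Finset V) ⊆ Q := by
        intro z hz
        rw [Finset.mem_insert, Finset.mem_singleton] at hz
        rcases hz with rfl | rfl
        · exact hq
        · exact hp
      obtain ⟨C, h1, h2, h3⟩ := Finset.exists_subsuperset_card_eq hsub
        (by rw [Finset.card_pair hpq]; norm_num : ({q, p} : Finset V).card ≤ 6) (by omega)
      have hcard : 5 ≤ (Q \ C).card := by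
        rw [Finset.card_sdiff_of_subset h2, h3]; omega
      obtain ⟨F, hF, hF5⟩ := Finset.exists_subset_card_eq hcard
      refine k_step (hQ.subset h2) h3 (hQ.subset (hF.trans Finset.sdiff_subset)) hF5 ?_
        (fun h => hvQ (h2 h)) (fun h => hvQ (Finset.mem_sdiff.1 (hF h)).1) (h1 (by simp))
        (h1 (by simp)) hpq hvq
      exact Finset.disjoint_of_subset_left hF Finset.sdiff_disjoint
  intro p hp p' hp' hne
  rw [Finset.mem_insert] at hp hp'
  rcases hp with rfl | hp
  · rcases hp' with rfl | hp'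
    · exact absurd rfl hne
    · exact key p' hp'
  · rcases hp' with rfl | hp'
    · exact (key p hp).symm
    · exact le_infect (hQ p hp p' hp' hne)

theorem five_step {G : SimpleGraph V} {Q F : Finset V} (hQ : Clq G Q) (h7 : 7 ≤ Q.card)
    (hF5 : F.card = 5) (hd : Disjoint F Q) {x y : V} (hx : x ∈ F) (hy : y ∈ F) (hxy : x ≠ y)
    (hF : ∀ p ∈ F, ∀ q ∈ F, p ≠ q → AddAdj G x y p q) : (infect HX G).Adj x y := by
  obtain ⟨C, hC, hC6⟩ := Finset.exists_subset_card_eq (by omega : 6 ≤ Q.card)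
  have h1 : 0 < (Q \ C).card := by
    rw [Finset.card_sdiff_of_subset hC, hC6]; omega
  obtain ⟨v, hv⟩ := Finset.card_pos.1 h1
  rw [Finset.mem_sdiff] at hv
  obtain ⟨a, ha, b, hb, hab⟩ := Finset.one_lt_card.1 (by omega : 1 < C.card)
  rw [infect_adj_iff]
  refine Or.inr ⟨hxy, usesCopy_of_cop (F := F) (C := C) (v := v) (a := a) (b := b)
    ⟨hF5, hC6, Finset.disjoint_of_subset_right hC hd, ?_, hv.2, ha, hb, hab, hF, ?_, ?_, ?_⟩
    (Or.inl ⟨hxy, hx, hy⟩)⟩
  · exact fun h => (Finset.disjoint_left.1 hd) h hv.1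
  · exact fun p hp q hq hpq => Or.inl (hQ p (hC hp) q (hC hq) hpq)
  · exact Or.inl (hQ v hv.1 a (hC ha) (fun e => hv.2 (e ▸ ha)))
  · exact Or.inl (hQ v hv.1 b (hC hb) (fun e => hv.2 (e ▸ hb)))

theorem adj_of_addAdj {G : SimpleGraph V} {x y p q : V} (h : AddAdj G x y p q)
    (hne : ¬ (p = x ∧ q = y)) (hne' : ¬ (p = y ∧ q = x)) : G.Adj p q := by
  rcases h with h | h
  · exact h
  · rcases Sym2.eq_iff.1 h with h | h
    · exact absurd h hne
    · exact absurd h hne'

/-- A new edge has its endpoints in a triangle with two old edges. -/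
theorem triangle_of_new {G : SimpleGraph V} {x y : V} (h : (infect HX G).Adj x y)
    (hn : ¬ G.Adj x y) : ∃ z, G.Adj z x ∧ G.Adj z y := by
  obtain ⟨hxy, hc⟩ := (infect_adj_iff.1 h).resolve_left hn
  obtain ⟨F, C, v, a, b, hcop, hu⟩ := cop_of_usesCopy hc
  have key : ∀ S : Finset V, 3 ≤ S.card → (∀ p ∈ S, ∀ q ∈ S, p ≠ q → AddAdj G x y p q) →
      x ∈ S → y ∈ S → ∃ z, G.Adj z x ∧ G.Adj z y := by
    intro S hS hA hx hy
    have h1 : 0 < (S \ {x, y}).card := by
      have h2 : ({x, y} : Finset V).card ≤ 2 := Finset.card_le_two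
      have h3 := Finset.le_card_sdiff ({x, y} : Finset V) S
      omega
    obtain ⟨z, hz⟩ := Finset.card_pos.1 h1
    rw [Finset.mem_sdiff, Finset.mem_insert, Finset.mem_singleton, not_or] at hz
    refine ⟨z, adj_of_addAdj (hA z hz.1 x hx hz.2.1) ?_ ?_,
      adj_of_addAdj (hA z hz.1 y hy hz.2.2) ?_ ?_⟩
    · exact fun e => hz.2.1 e.1
    · exact fun e => hz.2.2 e.1
    · exact fun e => hz.2.1 e.1
    · exact fun e => hz.2.2 e.1
  have hva : v ≠ a := fun e => hcop.vC (e ▸ hcop.aC)
  have hvb : v ≠ b := fun e => hcop.vC (e ▸ hcop.bC)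
  have hbv : b ≠ v := hvb.symm
  rcases hu with ⟨hx, hy⟩ | ⟨hx, hy⟩ | hu | hu
  · exact key F (by rw [hcop.cardF]; norm_num) hcop.cliqueF hx hy
  · exact key C (by rw [hcop.cardC]; norm_num) hcop.cliqueC hx hy
  · have hA := hcop.cliqueC a hcop.aC b hcop.bC hcop.ab
    have hB := hcop.vb
    rcases Sym2.eq_iff.1 hu with ⟨rfl, rfl⟩ | ⟨rfl, rfl⟩
    · refine ⟨b, (adj_of_addAdj hB ?_ ?_).symm, (adj_of_addAdj hA ?_ ?_).symm⟩
      · exact fun e => hcop.ab e.2.symm
      · exact fun e => hva e.1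
      · exact fun e => hva e.1.symm
      · exact fun e => hvb e.2.symm
    · refine ⟨b, (adj_of_addAdj hA ?_ ?_).symm, (adj_of_addAdj hB ?_ ?_).symm⟩
      · exact fun e => hvb e.2.symm
      · exact fun e => hva e.1.symm
      · exact fun e => hva e.1
      · exact fun e => hcop.ab e.2.symm
  · have hA := hcop.cliqueC a hcop.aC b hcop.bC hcop.ab
    have hB := hcop.va
    rcases Sym2.eq_iff.1 hu with ⟨rfl, rfl⟩ | ⟨rfl, rfl⟩
    · refine ⟨a, (adj_of_addAdj hB ?_ ?_).symm, (adj_of_addAdj hA ?_ ?_)⟩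
      · exact fun e => hcop.ab e.2
      · exact fun e => hvb e.1
      · exact fun e => hva e.1.symm
      · exact fun e => hcop.ab e.1
    · refine ⟨a, (adj_of_addAdj hA ?_ ?_), (adj_of_addAdj hB ?_ ?_).symm⟩
      · exact fun e => hcop.ab e.1
      · exact fun e => hva e.1.symm
      · exact fun e => hvb e.1
      · exact fun e => hcop.ab e.2

/-- `G` percolates. -/
def Perc (G : SimpleGraph V) : Prop := ∃ t, proc HX G t = ⊤

theorem outside {G : SimpleGraph V} (hG : Perc G) (t : ℕ) {Q : Finset V} (hQ : Q.Nonempty)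
    (hQ' : Q ≠ Finset.univ) : ∃ v, v ∉ Q ∧ ∃ q ∈ Q, (proc HX G t).Adj v q := by
  by_contra hcon
  push Not at hcon
  have hall : ∀ s, ∀ v, v ∉ Q → ∀ q ∈ Q, ¬ (proc HX G (t + s)).Adj v q := by
    intro s
    induction s with
    | zero => exact hcon
    | succ s ih =>
      intro v hv q hq hadj
      have hadj' : (infect HX (proc HX G (t + s))).Adj v q := hadj
      obtain ⟨z, hz1, hz2⟩ := triangle_of_new hadj' (ih v hv q hq)
      by_cases hz : z ∈ Q
      · exact ih v hv z hz hz1.symm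
      · exact ih z hz q hq hz2
  obtain ⟨T, hT⟩ := hG
  obtain ⟨q, hq⟩ := hQ
  obtain ⟨v, hv⟩ : ∃ v, v ∉ Q := by
    by_contra hc
    push Not at hc
    exact hQ' (Finset.eq_univ_iff_forall.2 hc)
  apply hall T v hv q hq
  apply proc_mono G (Nat.le_add_left T t)
  rw [hT, top_adj]
  exact fun e => hv (e ▸ hq)

theorem top_of_stable {G : SimpleGraph V} (hG : Perc G) {t : ℕ}
    (h : proc HX G t = proc HX G (t + 1)) : proc HX G t = ⊤ := by
  obtain ⟨T, hT⟩ := hG
  have hall : ∀ s, proc HX G (t + s) = proc HX G t := by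
    intro s
    induction s with
    | zero => rfl
    | succ s ih =>
      have : proc HX G (t + (s + 1)) = infect HX (proc HX G (t + s)) := rfl
      rw [this, ih]
      exact h.symm
  have h1 := hall T
  have h2 : (⊤ : SimpleGraph V) ≤ proc HX G (t + T) := by
    rw [← hT]; exact proc_mono G (Nat.le_add_left T t)
  rw [h1] at h2
  exact le_antisymm le_top h2

/-- The absorption argument: a vertex outside a `5`-clique `F'` adjacent to three of its vertices,
one of which is `v0`. -/
theorem absorb {G : SimpleGraph V} {Q F : Finset V} (hQ : Clq G Q) (h7 : 7 ≤ Q.card)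
    (hF : Clq G F) (hF5 : F.card = 5) (hd : Disjoint F Q) {v0 g1 g2 w : V} (h0 : v0 ∈ F)
    (h1 : g1 ∈ F) (h2 : g2 ∈ F) (h01 : v0 ≠ g1) (h02 : v0 ≠ g2) (h12 : g1 ≠ g2) (hw : w ∉ F)
    (hwQ : w ∉ Q) (a0 : G.Adj w v0) (a1 : G.Adj w g1) (a2 : G.Adj w g2) :
    ∃ F', F'.card = 5 ∧ Clq (infect HX G) F' ∧ Disjoint F' Q ∧ v0 ∉ F' := by
  have key : ∀ g ∈ F, (infect HX G).Adj w g := by
    intro g hg
    by_cases e0 : g = v0
    · rw [e0]; exact le_infect a0
    by_cases e1 : g = g1
    · rw [e1]; exact le_infect a1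
    by_cases e2 : g = g2
    · rw [e2]; exact le_infect a2
    have hwg : w ≠ g := fun e => hw (e ▸ hg)
    have hw0 : w ≠ v0 := fun e => hw (e ▸ h0)
    have hw1 : w ≠ g1 := fun e => hw (e ▸ h1)
    have hw2 : w ≠ g2 := fun e => hw (e ▸ h2)
    have hmem : ∀ z, z ∈ ({w, g, v0, g1, g2} : Finset V) ↔
        z = w ∨ z = g ∨ z = v0 ∨ z = g1 ∨ z = g2 := by
      intro z; simp
    refine five_step (F := {w, g, v0, g1, g2}) hQ h7 ?_ ?_ (by simp) (by simp) hwg ?_
    · rw [Finset.card_insert_of_notMem, Finset.card_insert_of_notMem,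
        Finset.card_insert_of_notMem, Finset.card_pair h12]
      · simp only [Finset.mem_insert, Finset.mem_singleton, not_or]; exact ⟨h01, h02⟩
      · simp only [Finset.mem_insert, Finset.mem_singleton, not_or]; exact ⟨e0, e1, e2⟩
      · simp only [Finset.mem_insert, Finset.mem_singleton, not_or]
        exact ⟨hwg, hw0, hw1, hw2⟩
    · rw [Finset.disjoint_left]
      intro z hz
      rw [hmem] at hz
      rcases hz with rfl | rfl | rfl | rfl | rfl
      · exact hwQ
      · exact (Finset.disjoint_left.1 hd) hg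
      · exact (Finset.disjoint_left.1 hd) h0
      · exact (Finset.disjoint_left.1 hd) h1
      · exact (Finset.disjoint_left.1 hd) h2
    · -- adjacency
      have hwz : ∀ z, z = g ∨ z = v0 ∨ z = g1 ∨ z = g2 → AddAdj G w g w z := by
        rintro z (rfl | rfl | rfl | rfl)
        · exact Or.inr rfl
        · exact Or.inl a0
        · exact Or.inl a1
        · exact Or.inl a2
      have hFz : ∀ z, z = g ∨ z = v0 ∨ z = g1 ∨ z = g2 → z ∈ F := by
        rintro z (rfl | rfl | rfl | rfl) <;> assumption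
      intro p hp q hq hpq
      rw [hmem] at hp hq
      rcases hp with hp | hp
      · rcases hq with hq | hq
        · exact absurd (hp.trans hq.symm) hpq
        · rw [hp]; exact hwz q hq
      · rcases hq with hq | hq
        · rw [hq]; exact AddAdj.symm (hwz p hp)
        · exact Or.inl (hF p (hFz p hp) q (hFz q hq) hpq)
  refine ⟨insert w (F.erase v0), ?_, ?_, ?_, ?_⟩
  · rw [Finset.card_insert_of_notMem (fun h => hw (Finset.mem_of_mem_erase h)),
      Finset.card_erase_of_mem h0, hF5]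
  · intro p hp q hq hpq
    rw [Finset.mem_insert] at hp hq
    rcases hp with rfl | hp
    · rcases hq with rfl | hq
      · exact absurd rfl hpq
      · exact key q (Finset.mem_of_mem_erase hq)
    · rcases hq with rfl | hq
      · exact (key p (Finset.mem_of_mem_erase hp)).symm
      · exact le_infect (hF p (Finset.mem_of_mem_erase hp) q (Finset.mem_of_mem_erase hq) hpq)
  · rw [Finset.disjoint_left]
    intro z hz
    rw [Finset.mem_insert] at hz
    rcases hz with rfl | hz
    · exact hwQ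
    · exact (Finset.disjoint_left.1 hd) (Finset.mem_of_mem_erase hz)
  · rw [Finset.mem_insert, not_or]
    exact ⟨fun e => hw (e ▸ h0), Finset.notMem_erase _ _⟩

end Pool.Agent.Q267.GBP2
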