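import Pool.Agent.Q267.GBP2.Upper

/-!
# Percolating graphs percolate in linear time: the stuck phase
-/

namespace Pool.Agent.Q267.GBP2

open SimpleGraph Pool.Agent.Q267.GBP

variable {V : Type*} [Fintype V] [DecidableEq V]

/-- A phase in which the clique `Q` does not grow. -/
structure Stuck (G : SimpleGraph V) (Q F : Finset V) (v0 : V) (t1 t2 : ℕ) : Prop where
  cliqueQ : Clq (proc HX G t1) Q
  h7 : 7 ≤ Q.card
  nb : ∀ t, t1 ≤ t → t ≤ t2 → ∀ v, v ∉ Q → ∀ q ∈ Q, (proc HX G t).Adj v q → v ∈ F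
  avoid : ∀ t, t1 ≤ t → t ≤ t2 → ∀ F' : Finset V, Clq (proc HX G t) F' → F'.card = 5 →
    Disjoint F' Q → v0 ∈ F'
  v0F : v0 ∈ F

theorem Stuck.no_six {G : SimpleGraph V} {Q F : Finset V} {v0 : V} {t1 t2 : ℕ}
    (h : Stuck G Q F v0 t1 t2) {t : ℕ} (ht1 : t1 ≤ t) (ht2 : t ≤ t2) {C : Finset V}
    (hC : Clq (proc HX G t) C) (hC6 : C.card = 6) (hd : Disjoint C Q) : False := by
  have h1 : 5 ≤ (C.erase v0).card := by
    have := Finset.pred_card_le_card_erase (s := C) (a := v0)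
    omega
  obtain ⟨F', hF', hF5⟩ := Finset.exists_subset_card_eq h1
  have h2 := h.avoid t ht1 ht2 F' (hC.subset (hF'.trans (Finset.erase_subset _ _))) hF5
    (Finset.disjoint_of_subset_left (hF'.trans (Finset.erase_subset _ _)) hd)
  exact absurd (hF' h2) (Finset.notMem_erase _ _)

theorem Stuck.new {G : SimpleGraph V} {Q F : Finset V} {v0 : V} {t1 t2 : ℕ}
    (h : Stuck G Q F v0 t1 t2) {t : ℕ} (ht1 : t1 ≤ t) (ht2 : t + 1 ≤ t2) {x y : V}
    (hnew : (proc HX G (t + 1)).Adj x y) (hold : ¬ (proc HX G t).Adj x y)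
    (hxQ : x ∉ Q) (hyQ : y ∉ Q) (hxF : x ∉ F) (hyF : y ∉ F) :
    ∃ F' : Finset V, x ∈ F' ∧ y ∈ F' ∧ F'.card = 5 ∧ Disjoint F' Q ∧ v0 ∈ F' ∧
      ∀ p ∈ F', ∀ q ∈ F', p ≠ q → AddAdj (proc HX G t) x y p q := by
  have hnew' : (infect HX (proc HX G t)).Adj x y := hnew
  obtain ⟨hxy, hc⟩ := (infect_adj_iff.1 hnew').resolve_left hold
  obtain ⟨S, C, v, a, b, hcop, hu⟩ := cop_of_usesCopy hc
  have up : ∀ T : Finset V, (∀ p ∈ T, ∀ q ∈ T, p ≠ q → AddAdj (proc HX G t) x y p q) →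
      Clq (proc HX G (t + 1)) T := by
    intro T hT p hp q hq hpq
    rcases hT p hp q hq hpq with h1 | h1
    · exact proc_le_succ G t h1
    · rcases Sym2.eq_iff.1 h1 with ⟨rfl, rfl⟩ | ⟨rfl, rfl⟩
      · exact hnew
      · exact hnew.symm
  have dis : ∀ T : Finset V, (∀ p ∈ T, ∀ q ∈ T, p ≠ q → AddAdj (proc HX G t) x y p q) →
      x ∈ T → Disjoint T Q := by
    intro T hT hx
    rw [Finset.disjoint_left]
    intro q hqT hqQ
    have hxq : x ≠ q := fun e => hxQ (e ▸ hqQ)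
    have h1 := adj_of_addAdj (hT x hx q hqT hxq) (fun e => hyQ (e.2 ▸ hqQ))
      (fun e => hxy e.1)
    exact hxF (h.nb t ht1 (by omega) x hxQ q hqQ h1)
  -- the case of an edge at the vertex outside the 6-clique
  have caseV : ∀ a' ∈ C, s(v, a') = s(x, y) → False := by
    intro a' ha' hva'
    have hCt : Clq (proc HX G t) C := by
      intro p hp q hq hpq
      refine adj_of_addAdj (hcop.cliqueC p hp q hq hpq) ?_ ?_
      · rintro ⟨e1, e2⟩
        rw [← e1, ← e2] at hva'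
        rcases Sym2.eq_iff.1 hva' with ⟨e, _⟩ | ⟨e, _⟩
        · exact hcop.vC (e ▸ hp)
        · exact hcop.vC (e ▸ hq)
      · rintro ⟨e1, e2⟩
        rw [← e1, ← e2] at hva'
        rcases Sym2.eq_iff.1 hva' with ⟨e, _⟩ | ⟨e, _⟩
        · exact hcop.vC (e ▸ hq)
        · exact hcop.vC (e ▸ hp)
    have haQ : a' ∉ Q ∧ a' ∉ F := by
      rcases Sym2.eq_iff.1 hva' with ⟨_, e⟩ | ⟨_, e⟩
      · rw [e]; exact ⟨hyQ, hyF⟩
      · rw [e]; exact ⟨hxQ, hxF⟩
    refine h.no_six ht1 (by omega) hCt hcop.cardC ?_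
    rw [Finset.disjoint_left]
    intro q hqC hqQ
    have haq : a' ≠ q := fun e => haQ.1 (e ▸ hqQ)
    exact haQ.2 (h.nb t ht1 (by omega) a' haQ.1 q hqQ (hCt a' ha' q hqC haq))
  rcases hu with ⟨hx, hy⟩ | ⟨hx, hy⟩ | hu | hu
  · refine ⟨S, hx, hy, hcop.cardF, dis S hcop.cliqueF hx, ?_, hcop.cliqueF⟩
    exact h.avoid (t + 1) (by omega) ht2 S (up S hcop.cliqueF) hcop.cardF
      (dis S hcop.cliqueF hx)
  · exact (h.no_six (t := t + 1) (by omega) ht2 (up C hcop.cliqueC) hcop.cardC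
      (dis C hcop.cliqueC hx)).elim
  · exact (caseV a hcop.aC hu).elim
  · exact (caseV b hcop.bC hu).elim

theorem Stuck.double {G : SimpleGraph V} {Q F : Finset V} {v0 : V} {t1 t2 : ℕ}
    (h : Stuck G Q F v0 t1 t2) (hG : Perc G) (hn : 16 ≤ Fintype.card V) (h10 : Q.card ≤ 10)
    {t : ℕ} (ht1 : t1 ≤ t) (ht2 : t + 3 ≤ t2) :
    ∃ s, t ≤ s ∧ s ≤ t + 1 ∧ ∃ x y, (proc HX G (s + 1)).Adj x y ∧ ¬ (proc HX G s).Adj x y ∧
      x ∈ Q ∪ F := by
  by_contra hcon
  push Not at hcon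
  have hout : ∀ s, t ≤ s → s ≤ t + 1 → ∀ x y, (proc HX G (s + 1)).Adj x y →
      ¬ (proc HX G s).Adj x y → x ∉ Q ∧ x ∉ F := by
    intro s hs1 hs2 x y h1 h2
    have := hcon s hs1 hs2 x y h1 h2
    rw [Finset.mem_union, not_or] at this
    exact this
  have hout' : ∀ s, t ≤ s → s ≤ t + 1 → ∀ x y, (proc HX G (s + 1)).Adj x y →
      ¬ (proc HX G s).Adj x y → y ∉ Q ∧ y ∉ F := fun s hs1 hs2 x y h1 h2 =>
    hout s hs1 hs2 y x h1.symm (fun e => h2 e.symm)
  -- something new at `t + 2`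
  have hne : ∃ x y, (proc HX G (t + 1 + 1)).Adj x y ∧ ¬ (proc HX G (t + 1)).Adj x y := by
    by_contra hc
    push Not at hc
    have heq : proc HX G (t + 1) = proc HX G (t + 1 + 1) :=
      le_antisymm (proc_le_succ G _) (fun x y hxy => hc x y hxy)
    have htop := top_of_stable hG heq
    have hcard : 5 ≤ (Finset.univ \ insert v0 Q).card := by
      have h1 := Finset.le_card_sdiff (insert v0 Q) (Finset.univ : Finset V)
      have h2 := Finset.card_insert_le v0 Q
      rw [Finset.card_univ] at h1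
      omega
    obtain ⟨F', hF', hF5⟩ := Finset.exists_subset_card_eq hcard
    have h1 := h.avoid (t + 1) (by omega) (by omega) F' ?_ hF5 ?_
    · have := hF' h1
      rw [Finset.mem_sdiff] at this
      exact this.2 (Finset.mem_insert_self _ _)
    · intro p _ q _ hpq
      rw [htop, top_adj]; exact hpq
    · rw [Finset.disjoint_left]
      intro z hz hzQ
      have := hF' hz
      rw [Finset.mem_sdiff] at this
      exact this.2 (Finset.mem_insert_of_mem hzQ)
  obtain ⟨x', y', hnew, hold⟩ := hne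
  obtain ⟨hxQ, hxF⟩ := hout (t + 1) (by omega) (by omega) x' y' hnew hold
  obtain ⟨hyQ, hyF⟩ := hout' (t + 1) (by omega) (by omega) x' y' hnew hold
  obtain ⟨S, hxS, hyS, hS5, hSQ, hv0S, hSA⟩ := h.new (t := t + 1) (by omega) (by omega) hnew hold
    hxQ hyQ hxF hyF
  have hxy : x' ≠ y' := hnew.ne
  -- an edge of `S` which is new at `t + 1`
  have hpq : ∃ p ∈ S, ∃ q ∈ S, p ≠ q ∧ (proc HX G (t + 1)).Adj p q ∧
      ¬ (proc HX G t).Adj p q := by
    by_contra hc
    push Not at hc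
    apply hold
    have hQt : Clq (proc HX G t) Q := h.cliqueQ.mono (proc_mono G ht1)
    refine five_step (G := proc HX G t) hQt h.h7 hS5 hSQ hxS hyS hxy ?_
    intro p hp q hq hne
    rcases hSA p hp q hq hne with h1 | h1
    · exact Or.inl (hc p hp q hq hne h1)
    · exact Or.inr h1
  obtain ⟨p, hpS, q, hqS, hpq, hpqnew, hpqold⟩ := hpq
  obtain ⟨hpQ, hpF⟩ := hout t (le_refl _) (by omega) p q hpqnew hpqold
  obtain ⟨hqQ, hqF⟩ := hout' t (le_refl _) (by omega) p q hpqnew hpqold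
  obtain ⟨T, hpT, hqT, hT5, hTQ, hv0T, hTA⟩ := h.new (t := t) ht1 (by omega) hpqnew hpqold
    hpQ hqQ hpF hqF
  have hTc : Clq (proc HX G (t + 1)) T := by
    intro u hu u' hu' hne
    rcases hTA u hu u' hu' hne with h1 | h1
    · exact proc_le_succ G t h1
    · rcases Sym2.eq_iff.1 h1 with ⟨rfl, rfl⟩ | ⟨rfl, rfl⟩
      · exact hpqnew
      · exact hpqnew.symm
  have hv0p : v0 ≠ p := fun e => hpF (e ▸ h.v0F)
  have hv0q : v0 ≠ q := fun e => hqF (e ▸ h.v0F)
  have hv0x : v0 ≠ x' := fun e => hxF (e ▸ h.v0F)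
  have hv0y : v0 ≠ y' := fun e => hyF (e ▸ h.v0F)
  -- the two other vertices of `S`
  have hsub : ({v0, p, q} : Finset V) ⊆ S := by
    intro z hz
    simp only [Finset.mem_insert, Finset.mem_singleton] at hz
    rcases hz with rfl | rfl | rfl <;> assumption
  have hc3 : ({v0, p, q} : Finset V).card = 3 := by
    rw [Finset.card_insert_of_notMem, Finset.card_pair hpq]
    simp only [Finset.mem_insert, Finset.mem_singleton, not_or]
    exact ⟨hv0p, hv0q⟩
  have hc2 : (S \ {v0, p, q}).card = 2 := by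
    rw [Finset.card_sdiff_of_subset hsub, hc3, hS5]
  obtain ⟨c, d, hcd, hcdeq⟩ := Finset.card_eq_two.1 hc2
  have hcS : c ∈ S \ {v0, p, q} := by rw [hcdeq]; simp
  have hdS : d ∈ S \ {v0, p, q} := by rw [hcdeq]; simp
  have hSmem : ∀ z ∈ S, z = v0 ∨ z = p ∨ z = q ∨ z = c ∨ z = d := by
    intro z hz
    by_cases hz' : z ∈ ({v0, p, q} : Finset V)
    · simp only [Finset.mem_insert, Finset.mem_singleton] at hz'
      tauto
    · have : z ∈ S \ {v0, p, q} := Finset.mem_sdiff.2 ⟨hz, hz'⟩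
      rw [hcdeq] at this
      simp only [Finset.mem_insert, Finset.mem_singleton] at this
      tauto
  simp only [Finset.mem_sdiff, Finset.mem_insert, Finset.mem_singleton, not_or] at hcS hdS
  obtain ⟨hcS, hcv, hcp, hcq⟩ := hcS
  obtain ⟨hdS, hdv, hdp, hdq⟩ := hdS
  -- adjacency inside `S`
  have hA : ∀ u ∈ S, ∀ u' ∈ S, u ≠ u' → ¬ (u = x' ∧ u' = y') → ¬ (u = y' ∧ u' = x') →
      (proc HX G (t + 1)).Adj u u' := fun u hu u' hu' hne h1 h2 =>
    adj_of_addAdj (hSA u hu u' hu' hne) h1 h2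
  have hnotadj : ∀ u u', ((u = x' ∧ u' = y') ∨ (u = y' ∧ u' = x')) →
      ¬ (proc HX G (t + 1)).Adj u u' := by
    rintro u u' (⟨rfl, rfl⟩ | ⟨rfl, rfl⟩) hadj
    · exact hold hadj
    · exact hold hadj.symm
  have key : ∀ c d, c ∈ S → d ∈ S → c ≠ v0 → c ≠ p → c ≠ q → d ≠ v0 → d ≠ p → d ≠ q → c ≠ d →
      c ∉ T → ∃ w g1 g2, w ∉ T ∧ g1 ∈ T ∧ g2 ∈ T ∧ v0 ≠ g1 ∧ v0 ≠ g2 ∧ g1 ≠ g2 ∧ w ∈ S ∧
      (proc HX G (t + 1)).Adj w v0 ∧ (proc HX G (t + 1)).Adj w g1 ∧
      (proc HX G (t + 1)).Adj w g2 := by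
    intro c d hcS hdS hcv hcp hcq hdv hdp hdq hcd hcT
    have hcv0 : (proc HX G (t + 1)).Adj c v0 := hA c hcS v0 hv0S hcv
      (fun e => hv0y e.2) (fun e => hv0x e.2)
    have hdv0 : (proc HX G (t + 1)).Adj d v0 := hA d hdS v0 hv0S hdv
      (fun e => hv0y e.2) (fun e => hv0x e.2)
    by_cases h1 : (proc HX G (t + 1)).Adj c p
    · by_cases h2 : (proc HX G (t + 1)).Adj c q
      · exact ⟨c, p, q, hcT, hpT, hqT, hv0p, hv0q, hpq, hcS, hcv0, h1, h2⟩
      · -- the missing pair is `{c, q}`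
        have hm : (c = x' ∧ q = y') ∨ (c = y' ∧ q = x') := by
          by_contra hm
          rw [not_or] at hm
          exact h2 (hA c hcS q hqS hcq hm.1 hm.2)
        have hdp' : (proc HX G (t + 1)).Adj d p := by
          refine hA d hdS p hpS hdp ?_ ?_
          · rintro ⟨e1, e2⟩
            rcases hm with ⟨e3, e4⟩ | ⟨e3, e4⟩
            · exact hcd (e3.trans e1.symm)
            · exact hcp (e3.trans e2.symm)
          · rintro ⟨e1, e2⟩
            rcases hm with ⟨e3, e4⟩ | ⟨e3, e4⟩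
            · exact hcp (e3.trans e2.symm)
            · exact hcd (e3.trans e1.symm)
        have hdq' : (proc HX G (t + 1)).Adj d q := by
          refine hA d hdS q hqS hdq ?_ ?_
          · rintro ⟨e1, e2⟩
            rcases hm with ⟨e3, e4⟩ | ⟨e3, e4⟩
            · exact hcd (e3.trans e1.symm)
            · exact hcq (e3.trans e2.symm)
          · rintro ⟨e1, e2⟩
            rcases hm with ⟨e3, e4⟩ | ⟨e3, e4⟩
            · exact hcq (e3.trans e2.symm)
            · exact hcd (e3.trans e1.symm)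
        have hcd' : (proc HX G (t + 1)).Adj c d := by
          refine hA c hcS d hdS hcd ?_ ?_
          · rintro ⟨e1, e2⟩
            rcases hm with ⟨e3, e4⟩ | ⟨e3, e4⟩
            · exact hdq (e2.trans e4.symm)
            · exact hxy (e1.symm.trans e3)
          · rintro ⟨e1, e2⟩
            rcases hm with ⟨e3, e4⟩ | ⟨e3, e4⟩
            · exact hxy (e3.symm.trans e1)
            · exact hdq (e2.trans e4.symm)
        by_cases hdT : d ∈ T
        · exact ⟨c, p, d, hcT, hpT, hdT, hv0p, hdv.symm, hdp.symm, hcS, hcv0, h1, hcd'⟩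
        · exact ⟨d, p, q, hdT, hpT, hqT, hv0p, hv0q, hpq, hdS, hdv0, hdp', hdq'⟩
    · -- the missing pair is `{c, p}`
      have hm : (c = x' ∧ p = y') ∨ (c = y' ∧ p = x') := by
        by_contra hm
        rw [not_or] at hm
        exact h1 (hA c hcS p hpS hcp hm.1 hm.2)
      have hcq' : (proc HX G (t + 1)).Adj c q := by
        refine hA c hcS q hqS hcq ?_ ?_
        · rintro ⟨e1, e2⟩
          rcases hm with ⟨e3, e4⟩ | ⟨e3, e4⟩
          · exact hpq (e4.trans e2.symm)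
          · exact hxy (e1.symm.trans e3)
        · rintro ⟨e1, e2⟩
          rcases hm with ⟨e3, e4⟩ | ⟨e3, e4⟩
          · exact hxy (e3.symm.trans e1)
          · exact hpq (e4.trans e2.symm)
      have hdp' : (proc HX G (t + 1)).Adj d p := by
        refine hA d hdS p hpS hdp ?_ ?_
        · rintro ⟨e1, e2⟩
          rcases hm with ⟨e3, e4⟩ | ⟨e3, e4⟩
          · exact hcd (e3.trans e1.symm)
          · exact hcp (e3.trans e2.symm)
        · rintro ⟨e1, e2⟩
          rcases hm with ⟨e3, e4⟩ | ⟨e3, e4⟩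
          · exact hcp (e3.trans e2.symm)
          · exact hcd (e3.trans e1.symm)
      have hdq' : (proc HX G (t + 1)).Adj d q := by
        refine hA d hdS q hqS hdq ?_ ?_
        · rintro ⟨e1, e2⟩
          rcases hm with ⟨e3, e4⟩ | ⟨e3, e4⟩
          · exact hcd (e3.trans e1.symm)
          · exact hcq (e3.trans e2.symm)
        · rintro ⟨e1, e2⟩
          rcases hm with ⟨e3, e4⟩ | ⟨e3, e4⟩
          · exact hcq (e3.trans e2.symm)
          · exact hcd (e3.trans e1.symm)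
      have hcd' : (proc HX G (t + 1)).Adj c d := by
        refine hA c hcS d hdS hcd ?_ ?_
        · rintro ⟨e1, e2⟩
          rcases hm with ⟨e3, e4⟩ | ⟨e3, e4⟩
          · exact hdp (e2.trans e4.symm)
          · exact hxy (e1.symm.trans e3)
        · rintro ⟨e1, e2⟩
          rcases hm with ⟨e3, e4⟩ | ⟨e3, e4⟩
          · exact hxy (e3.symm.trans e1)
          · exact hdp (e2.trans e4.symm)
      by_cases hdT : d ∈ T
      · exact ⟨c, q, d, hcT, hqT, hdT, hv0q, hdv.symm, hdq.symm, hcS, hcv0, hcq', hcd'⟩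
      · exact ⟨d, p, q, hdT, hpT, hqT, hv0p, hv0q, hpq, hdS, hdv0, hdp', hdq'⟩
  have hex : ∃ w g1 g2, w ∉ T ∧ g1 ∈ T ∧ g2 ∈ T ∧ v0 ≠ g1 ∧ v0 ≠ g2 ∧ g1 ≠ g2 ∧ w ∈ S ∧
      (proc HX G (t + 1)).Adj w v0 ∧ (proc HX G (t + 1)).Adj w g1 ∧
      (proc HX G (t + 1)).Adj w g2 := by
    by_cases hcT : c ∈ T
    · by_cases hdT : d ∈ T
      · exfalso
        have hall : ∀ z ∈ S, z ∈ T := by
          intro z hz
          rcases hSmem z hz with rfl | rfl | rfl | rfl | rfl <;> assumption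
        exact hold (hTc x' (hall x' hxS) y' (hall y' hyS) hxy)
      · exact key d c hdS hcS hdv hdp hdq hcv hcp hcq hcd.symm hdT
    · exact key c d hcS hdS hcv hcp hcq hdv hdp hdq hcd hcT
  obtain ⟨w, g1, g2, hwT, hg1, hg2, h01, h02, h12, hwS, a0, a1, a2⟩ := hex
  have hQt : Clq (proc HX G (t + 1)) Q := h.cliqueQ.mono (proc_mono G (by omega))
  obtain ⟨F', hF5, hFc, hFQ, hFv⟩ := absorb hQt h.h7 hTc hT5 hTQ hv0T hg1 hg2 h01 h02 h12 hwT
    ((Finset.disjoint_left.1 hSQ) hwS) a0 a1 a2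
  exact hFv (h.avoid (t + 2) (by omega) (by omega) F' hFc hF5 hFQ)

open Classical in
/-- The number of pairs `(z, u)` with `z ∈ Z` which are adjacent at time `t`. -/
noncomputable def cnt (G : SimpleGraph V) (Z : Finset V) (t : ℕ) : ℕ :=
  ((Z ×ˢ (Finset.univ : Finset V)).filter (fun p => (proc HX G t).Adj p.1 p.2)).card

theorem cnt_le (G : SimpleGraph V) (Z : Finset V) (t : ℕ) :
    cnt G Z t ≤ Z.card * Fintype.card V := by
  classical
  unfold cnt
  refine (Finset.card_filter_le _ _).trans ?_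
  rw [Finset.card_product, Finset.card_univ]

theorem cnt_lt (G : SimpleGraph V) (Z : Finset V) {t s : ℕ} (hs1 : t ≤ s) (hs2 : s ≤ t + 1)
    {x y : V} (h1 : (proc HX G (s + 1)).Adj x y) (h2 : ¬ (proc HX G s).Adj x y) (hx : x ∈ Z) :
    cnt G Z t + 1 ≤ cnt G Z (t + 2) := by
  classical
  unfold cnt
  rw [Nat.add_one_le_iff]
  apply Finset.card_lt_card
  rw [Finset.ssubset_iff_of_subset]
  · refine ⟨(x, y), ?_, ?_⟩
    · rw [Finset.mem_filter, Finset.mem_product]
      exact ⟨⟨hx, Finset.mem_univ _⟩, proc_mono G (by omega) h1⟩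
    · rw [Finset.mem_filter]
      rintro ⟨_, h3⟩
      exact h2 (proc_mono G hs1 h3)
  · intro p hp
    rw [Finset.mem_filter] at hp ⊢
    exact ⟨hp.1, proc_mono G (by omega) hp.2⟩

theorem Stuck.bound {G : SimpleGraph V} {Q F : Finset V} {v0 : V} {t1 t2 : ℕ}
    (h : Stuck G Q F v0 t1 t2) (hG : Perc G) (hn : 16 ≤ Fintype.card V) (h10 : Q.card ≤ 10)
    (hF5 : F.card = 5) : t2 < t1 + 30 * Fintype.card V + 6 := by
  by_contra hcon
  push Not at hcon
  have hk : ∀ k, k ≤ 15 * Fintype.card V + 1 → k ≤ cnt G (Q ∪ F) (t1 + 2 * k) := by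
    intro k
    induction k with
    | zero => intro _; exact Nat.zero_le _
    | succ k ih =>
      intro hk
      obtain ⟨s, hs1, hs2, x, y, h1, h2, hx⟩ := h.double hG hn h10 (t := t1 + 2 * k) (by omega)
        (by omega)
      have h3 := cnt_lt G (Q ∪ F) hs1 hs2 h1 h2 hx
      have h4 := ih (by omega)
      have e : t1 + 2 * (k + 1) = t1 + 2 * k + 2 := by ring
      rw [e]
      omega
  have h1 := hk (15 * Fintype.card V + 1) (le_refl _)
  have h2 := cnt_le G (Q ∪ F) (t1 + 2 * (15 * Fintype.card V + 1))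
  have h3 : (Q ∪ F).card ≤ 15 := (Finset.card_union_le _ _).trans (by omega)
  have h4 : (Q ∪ F).card * Fintype.card V ≤ 15 * Fintype.card V := Nat.mul_le_mul_right _ h3
  omega

/-- A large clique together with a disjoint `5`-clique at time `t`. -/
def State (G : SimpleGraph V) (k t : ℕ) : Prop :=
  ∃ Q F : Finset V, Clq (proc HX G t) Q ∧ Q.card = k ∧ Clq (proc HX G t) F ∧ F.card = 5 ∧
    Disjoint F Q

theorem advance {G : SimpleGraph V} (hG : Perc G) (hn : 16 ≤ Fintype.card V) {k t : ℕ}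
    (h7 : 7 ≤ k) (h10 : k ≤ 10) (h : State G k t) :
    ∃ t', t' ≤ t + 30 * Fintype.card V + 7 ∧ State G (k + 1) t' := by
  by_contra hcon
  push Not at hcon
  obtain ⟨Q, F, hQ, hQk, hF, hF5, hd⟩ := h
  have hα : ∀ s, t ≤ s → s ≤ t + 30 * Fintype.card V + 6 → ∀ v, v ∉ Q → ∀ q ∈ Q,
      (proc HX G s).Adj v q → ∀ F' : Finset V, Clq (proc HX G s) F' → F'.card = 5 →
      Disjoint F' Q → v ∈ F' := by
    intro s hs1 hs2 v hvQ q hq hvq F' hF' hF5' hd'
    by_contra hvF
    apply hcon (s + 1) (by omega)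
    refine ⟨insert v Q, F', ?_, ?_, hF'.mono (proc_le_succ G s), hF5', ?_⟩
    · exact grow (hQ.mono (proc_mono G hs1)) (by omega) hF' hF5' hd' hvQ hvF hq hvq
    · rw [Finset.card_insert_of_notMem hvQ, hQk]
    · rw [Finset.disjoint_insert_right]
      exact ⟨hvF, hd'⟩
  obtain ⟨v0, hv0, q0, hq0, hadj⟩ := outside hG t (Q := Q)
    (Finset.card_pos.1 (by omega)) (by
      intro he
      rw [he, Finset.card_univ] at hQk
      omega)
  have hst : Stuck G Q F v0 t (t + 30 * Fintype.card V + 6) := by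
    refine ⟨hQ, by omega, ?_, ?_, ?_⟩
    · intro s hs1 hs2 v hv q hq hvq
      exact hα s hs1 hs2 v hv q hq hvq F (hF.mono (proc_mono G hs1)) hF5 hd
    · intro s hs1 hs2 F' hF' hF5' hd'
      exact hα s hs1 hs2 v0 hv0 q0 hq0 (proc_mono G hs1 hadj) F' hF' hF5' hd'
    · exact hα t (le_refl _) (by omega) v0 hv0 q0 hq0 hadj F hF hF5 hd
  have := hst.bound hG hn (by omega) hF5
  omega

theorem start_state {G : SimpleGraph V} (h01 : proc HX G 0 ≠ proc HX G 1) : State G 7 2 := by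
  have hex : ∃ x y, (proc HX G 1).Adj x y ∧ ¬ (proc HX G 0).Adj x y := by
    by_contra hcon
    push Not at hcon
    exact h01 (le_antisymm (proc_le_succ G 0) (fun x y hxy => hcon x y hxy))
  obtain ⟨x, y, hxy, hnxy⟩ := hex
  obtain ⟨hne, hc⟩ := (infect_adj_iff.1 hxy).resolve_left hnxy
  obtain ⟨F, C, v, a, b, hcop, hu⟩ := cop_of_usesCopy hc
  have key : ∀ p q, AddAdj (proc HX G 0) x y p q → (proc HX G 1).Adj p q := by
    rintro p q (h | h)
    · exact proc_le_succ G 0 h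
    · rcases Sym2.eq_iff.1 h with ⟨rfl, rfl⟩ | ⟨rfl, rfl⟩
      · exact hxy
      · exact hxy.symm
  have hC : Clq (proc HX G 1) C := fun p hp q hq hpq => key p q (hcop.cliqueC p hp q hq hpq)
  have hF : Clq (proc HX G 1) F := fun p hp q hq hpq => key p q (hcop.cliqueF p hp q hq hpq)
  refine ⟨insert v C, F, ?_, ?_, hF.mono (proc_le_succ G 1), hcop.cardF, ?_⟩
  · exact grow hC (by rw [hcop.cardC]) hF hcop.cardF hcop.disj hcop.vC hcop.vF hcop.aC
      (key v a hcop.va)
  · rw [Finset.card_insert_of_notMem hcop.vC, hcop.cardC]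
  · rw [Finset.disjoint_insert_right]
    exact ⟨hcop.vF, hcop.disj⟩

theorem perc_bound {G : SimpleGraph V} (hG : Perc G) (hn : 16 ≤ Fintype.card V) :
    runTime HX G ≤ 121 * Fintype.card V + 30 := by
  by_cases h01 : proc HX G 0 = proc HX G 1
  · exact (runTime_le h01).trans (Nat.zero_le _)
  have h7 := start_state h01
  obtain ⟨a, ha, h8⟩ := advance hG hn (le_refl 7) (by norm_num) h7
  obtain ⟨b, hb, h9⟩ := advance hG hn (by norm_num) (by norm_num) h8
  obtain ⟨c, hc, h10⟩ := advance hG hn (by norm_num) (by norm_num) h9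
  obtain ⟨d, hd, h11⟩ := advance hG hn (by norm_num) (by norm_num) h10
  obtain ⟨Q, -, hQ, hQc, -⟩ := h11
  have hfin : ∀ j, 11 + j ≤ Fintype.card V → ∃ Q : Finset V, Q.card = 11 + j ∧
      Clq (proc HX G (d + j)) Q := by
    intro j
    induction j with
    | zero => intro _; exact ⟨Q, hQc, hQ⟩
    | succ j ih =>
      intro hj
      obtain ⟨R, hR, hRc⟩ := ih (by omega)
      obtain ⟨v, hv, q, hq, hvq⟩ := outside hG (d + j) (Q := R)
        (Finset.card_pos.1 (by omega)) (by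
          intro he
          rw [he, Finset.card_univ] at hR
          omega)
      refine ⟨insert v R, ?_, grow_big hRc (by omega) hv hq hvq⟩
      rw [Finset.card_insert_of_notMem hv, hR]
      omega
  obtain ⟨R, hR, hRc⟩ := hfin (Fintype.card V - 11) (by omega)
  have hRu : R = Finset.univ := by
    apply Finset.eq_univ_of_card
    rw [hR]; omega
  refine (runTime_le (T := d + (Fintype.card V - 11)) ?_).trans (by omega)
  refine le_antisymm (proc_le_succ G _) ?_
  intro x y hxy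
  exact hRc x (by rw [hRu]; exact Finset.mem_univ _) y (by rw [hRu]; exact Finset.mem_univ _)
    hxy.ne

end Pool.Agent.Q267.GBP2
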